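import Mathlib
import Pool.Agent.L7h11.UM.Siz

set_option autoImplicit false

namespace Pool.Agent.L7h86.UM

open Pool.Agent.L7h11.UM

theorem length_adjL (I : ℕ → ℕ) (v : ℕ) : (adjL I v).length = I (v + 1) - I v := by
  simp [adjL]

theorem length_eq_degree {n : ℕ} {G : SimpleGraph (Fin n)} {I : ℕ → ℕ} (hI : IsAdjacencyList n G I)
    [DecidableRel G.Adj] (v : Fin n) : I (v + 1) - I v = G.degree v := by
  classical
  rw [← length_adjL, ← List.toFinset_card_of_nodup (hI.nodup v v.2),
    ← SimpleGraph.card_neighborFinset_eq_degree]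
  have : (adjL I v).toFinset = (G.neighborFinset v).image (fun u : Fin n => (u : ℕ)) := by
    ext u
    rw [List.mem_toFinset, hI.mem, Finset.mem_image]
    constructor
    · rintro ⟨h, ha⟩
      exact ⟨⟨u, h⟩, by simpa using ha, rfl⟩
    · rintro ⟨w, hw, rfl⟩
      exact ⟨w.2, by simpa using hw⟩
  rw [this, Finset.card_image_of_injective _ Fin.val_injective]

theorem last_eq {n : ℕ} {G : SimpleGraph (Fin n)} {I : ℕ → ℕ} (hn : 1 ≤ n) (hG : G.IsTree)
    (hI : IsAdjacencyList n G I) : I n = 3 * n - 1 := by
  classical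
  have h1 : ∀ m ≤ n, I m = I 0 + ∑ v ∈ Finset.range m, (I (v + 1) - I v) := by
    intro m
    induction m with
    | zero => simp
    | succ m ih =>
      intro hm
      rw [Finset.sum_range_succ]
      have := ih (by omega)
      have := hI.mono m (by omega)
      omega
  have h2 : ∑ v ∈ Finset.range n, (I (v + 1) - I v) = ∑ v : Fin n, G.degree v := by
    rw [← Fin.sum_univ_eq_sum_range (fun v => I (v + 1) - I v) n]
    exact Finset.sum_congr rfl fun v _ => length_eq_degree hI v
  have h3 := G.sum_degrees_eq_twice_card_edges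
  have h4 := hG.card_edgeFinset
  rw [Fintype.card_fin] at h4
  have h5 := h1 n le_rfl
  rw [h2, h3, hI.first] at h5
  have h6 : G.edgeFinset.card = n - 1 := by omega
  omega

theorem s_ADJ : S_ADJ := by
  intro n G I hn hG hI
  refine ⟨last_eq hn hG hI, ?_⟩
  intro ord par hR hA v hv
  obtain ⟨idx, h1, h2⟩ := hR.exists_idx
  have hmem : ∀ u, u ∈ adjL I v ↔ ∃ h : u < n, G.Adj ⟨v, hv⟩ ⟨u, h⟩ := fun u => hI.mem ⟨v, hv⟩ u
  have hlt : ∀ u ∈ adjL I v, u < n := by
    intro u hu
    obtain ⟨h, _⟩ := (hmem u).1 hu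
    exact h
  refine ⟨(hI.nodup v hv).filter _, ?_, hlt, ?_⟩
  · intro c
    rw [List.mem_filter, hmem]
    constructor
    · rintro ⟨⟨hc, ha⟩, hne⟩
      have hne' : c ≠ par v := by simpa using hne
      rcases (hA _ _).1 ha with h | h
      · exact absurd h.symm hne'
      · exact ⟨hc, h⟩
    · rintro ⟨hc, hp⟩
      refine ⟨⟨hc, (hA _ _).2 (Or.inr hp)⟩, ?_⟩
      have ha := (hR.par_idx h1 h2 hc (Or.inl (by rw [hp]; exact hv))).2.2
      rw [hp] at ha
      have : c ≠ par v := by
        intro hcp
        have hb := (hR.par_idx h1 h2 hv (Or.inl (by rw [← hcp]; exact hc))).2.2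
        rw [← hcp] at hb
        omega
      simpa using this
  · rw [← length_adjL]
    by_cases h0 : 0 < v
    · rw [if_pos h0]
      have hp := hR.par_idx h1 h2 hv (Or.inr (by omega))
      have hin : par v ∈ adjL I v := (hmem _).2 ⟨hp.2.1, (hA _ _).2 (Or.inl rfl)⟩
      have e : (adjL I v).filter (fun c => decide (c ≠ par v)) = (adjL I v).erase (par v) := by
        rw [(hI.nodup v hv).erase_eq_filter]
        apply List.filter_congr
        intro x _
        by_cases hx : x = par v <;> simp [hx]
      rw [e, List.length_erase_of_mem hin]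
    · have hv0 : v = 0 := by omega
      subst hv0
      rw [if_neg h0, Nat.sub_zero]
      congr 1
      rw [List.filter_eq_self]
      intro c hc
      have := hlt c hc
      have hz := hR.par_zero
      have : c ≠ par 0 := by omega
      simpa using this

end Pool.Agent.L7h86.UM
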