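import Mathlib
import Pool.Agent.L7h86.UM.Adj
import Pool.Agent.L7h11.UM.Lang

set_option autoImplicit false

namespace Pool.Agent.L7h86.UM

open Pool.Agent.L7h11.UM

/-- A loop with amortized costs: `I k τ s` holds after `k` rounds, with the time `τ` spent. -/
theorem loopA {N W : ℕ} {a b : Ex} {c : Cm} {Q : S → Prop} (M Tmax : ℕ) (I : ℕ → ℕ → S → Prop)
    (hstep : ∀ k < M, ∀ τ s, I k τ s → a.ok N W s ∧ b.ok N W s ∧ a.ev s < b.ev s ∧
      ∃ T, Ht N W c s T (I (k + 1) (τ + T + 1)))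
    (hend : ∀ τ s, I M τ s → a.ok N W s ∧ b.ok N W s ∧ ¬ a.ev s < b.ev s ∧ Q s ∧ τ + 1 ≤ Tmax)
    {s : S} (h0 : I 0 0 s) : Ht N W (.loop a b c) s Tmax Q := by
  have key : ∀ m, m ≤ M → ∀ τ s, I (M - m) τ s →
      ∃ T, τ + T ≤ Tmax ∧ Ht N W (.loop a b c) s T Q := by
    intro m
    induction m with
    | zero =>
      intro _ τ s hs
      obtain ⟨h1, h2, h3, h4, h5⟩ := hend τ s (by simpa using hs)
      exact ⟨1, h5, s, 1, .loopF h1 h2 h3, le_rfl, h4⟩
    | succ m ih =>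
      intro hm τ s hs
      obtain ⟨h1, h2, h3, T, s', t, h4, h5, h6⟩ := hstep (M - (m + 1)) (by omega) τ s hs
      have e : M - (m + 1) + 1 = M - m := by omega
      rw [e] at h6
      obtain ⟨T', h7, s'', t', h8, h9, h10⟩ := ih (by omega) _ s' h6
      exact ⟨T + T' + 1, by omega, s'', t + t' + 1, .loopT h1 h2 h3 h4 h8, by omega, h10⟩
  obtain ⟨T, h1, h2⟩ := key M le_rfl 0 s (by simpa using h0)
  exact h2.mono (by omega) fun _ h => h

/-- adjacency of numbers -/
def Aj {n : ℕ} (G : SimpleGraph (Fin n)) (u v : ℕ) : Prop :=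
  ∃ (hu : u < n) (hv : v < n), G.Adj ⟨u, hu⟩ ⟨v, hv⟩

/-- the parents in a rooted tree -/
theorem exists_parent {n : ℕ} {G : SimpleGraph (Fin n)} (hn : 1 ≤ n) (hG : G.IsTree) :
    ∃ P : ℕ → ℕ, (∀ u < n, u ≠ 0 → Aj G u (P u)) ∧
      (∀ u v, Aj G u v → (u ≠ 0 ∧ P u = v) ∨ (v ≠ 0 ∧ P v = u)) := by
  classical
  let r : Fin n := ⟨0, hn⟩
  have hex : ∀ v : Fin n, ∃ p : G.Walk v r, p.IsPath := fun v => (hG.existsUnique_path v r).exists
  choose q hq using hex
  refine ⟨fun u => if h : u < n then ((q ⟨u, h⟩).snd : ℕ) else 0, ?_, ?_⟩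
  · intro u hu h0
    refine ⟨hu, by simp [hu], ?_⟩
    have hne : ¬ (q ⟨u, hu⟩).Nil := by
      intro hnil
      have := hnil.eq
      exact h0 (by simpa [r] using congrArg Fin.val this)
    have := (q ⟨u, hu⟩).adj_snd hne
    simpa [hu] using this
  · rintro u v ⟨hu, hv, ha⟩
    by_cases hs : (⟨v, hv⟩ : Fin n) ∈ (q ⟨u, hu⟩).support
    · left
      have h1 := hG.isAcyclic.eq_snd_of_adj_start (hq ⟨u, hu⟩) ha hs
      refine ⟨?_, ?_⟩
      · rintro rfl
        have h2 : q ⟨0, hu⟩ = SimpleGraph.Walk.nil :=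
          (hG.existsUnique_path ⟨0, hu⟩ r).unique (hq _) (SimpleGraph.Walk.IsPath.nil)
        rw [h2] at hs
        simp only [SimpleGraph.Walk.support_nil, List.mem_singleton] at hs
        rw [hs] at ha
        exact G.loopless.irrefl _ ha
      · simp only [hu, dif_pos]
        rw [← h1]
    · right
      have hp : ((q ⟨u, hu⟩).cons ha.symm).IsPath := (hq ⟨u, hu⟩).cons hs
      have h1 := (hG.existsUnique_path ⟨v, hv⟩ r).unique (hq _) hp
      refine ⟨?_, ?_⟩
      · rintro rfl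
        exact hs (by simp [r])
      · simp only [hv, dif_pos]
        rw [h1]
        simp

/-- connectedness -/
theorem all_of_closed {n : ℕ} {G : SimpleGraph (Fin n)} (hn : 1 ≤ n) (hG : G.IsTree)
    (A : ℕ → Prop) (h0 : A 0) (h : ∀ u v, A u → Aj G u v → A v) : ∀ u < n, A u := by
  intro u hu
  have key : ∀ a b : Fin n, G.Walk a b → A a → A b := by
    intro a b w
    induction w with
    | nil => exact id
    | cons hab _ ih => exact fun ha => ih (h _ _ ha ⟨_, _, hab⟩)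
  exact key ⟨0, hn⟩ ⟨u, hu⟩ (hG.connected.preconnected _ _).some h0

end Pool.Agent.L7h86.UM
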