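import Mathlib
import Pool.Agent.L7h86.UM.Par

set_option autoImplicit false

namespace Pool.Agent.L7h86.UM

open Pool.Agent.L7h11.UM

/-- state of the breadth first search: the first `i` entries are treated, and `J` neighbours of the
entry number `i` -/
structure BF (n : ℕ) (G : SimpleGraph (Fin n)) (I P : ℕ → ℕ) (i J cnt : ℕ) (ord par : ℕ → ℕ) :
    Prop where
  cpos : 1 ≤ cnt
  icnt : i ≤ cnt
  lt : ∀ m < cnt, ord m < n
  inj : ∀ m < cnt, ∀ m' < cnt, ord m = ord m' → m = m'
  o0 : ord 0 = 0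
  p0 : par 0 = n
  pp : ∀ m, 0 < m → m < cnt → ∃ j < m, par (ord m) = ord j ∧ P (ord m) = ord j ∧
    (j < i ∨ (j = i ∧ ord m ∈ (adjL I (ord i)).take J))
  cl : ∀ m < i, ∀ u, Aj G (ord m) u → ∃ m' < cnt, ord m' = u
  cur : ∀ u ∈ (adjL I (ord i)).take J, ∃ m' < cnt, ord m' = u

variable {n : ℕ} {G : SimpleGraph (Fin n)} {I P : ℕ → ℕ} {i J cnt : ℕ} {ord par : ℕ → ℕ}

theorem BF.start (hn : 1 ≤ n) (h0 : ord 0 = 0) (h1 : par 0 = n) :
    BF n G I P 0 0 1 ord par where
  cpos := le_rfl
  icnt := by omega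
  lt := by
    intro m hm
    obtain rfl : m = 0 := by omega
    omega
  inj := by intro m hm m' hm' _; omega
  o0 := h0
  p0 := h1
  pp := by intro m hm hm'; omega
  cl := by intro m hm; omega
  cur := by intro u hu; simp at hu

theorem BF.le (h : BF n G I P i J cnt ord par) : cnt ≤ n := by
  have := Finset.card_le_card_of_injOn (s := Finset.range cnt) (t := Finset.range n) ord
    (fun m hm => by
      have := h.lt m (by simpa using hm)
      simpa using this)
    (fun m hm m' hm' e => h.inj m (by simpa using hm) m' (by simpa using hm') e)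
  simpa using this

theorem BF.notStuck (hn : 1 ≤ n) (hG : G.IsTree) (h : BF n G I P i J cnt ord par) (hi : i < n) :
    i < cnt := by
  by_contra hc
  have he : i = cnt := le_antisymm h.icnt (by omega)
  have hall := all_of_closed hn hG (fun u => ∃ m < cnt, ord m = u) ⟨0, h.cpos, h.o0⟩ (by
    rintro u v ⟨m, hm, rfl⟩ huv
    exact h.cl m (by omega) v huv)
  have hc2 : (Finset.range n).card ≤ (Finset.range cnt).card := by
    apply Finset.card_le_card_of_surjOn ord
    intro u hu
    obtain ⟨m, hm, hmu⟩ := hall u (by simpa using hu)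
    exact ⟨m, by simpa using hm, hmu⟩
  simp at hc2
  omega

theorem mem_take_succ {l : List ℕ} {J : ℕ} (hJ : J < l.length) {u : ℕ} :
    u ∈ l.take (J + 1) ↔ u ∈ l.take J ∨ u = l[J] := by
  rw [List.take_add_one, List.getElem?_eq_getElem hJ, List.mem_append, Option.toList_some,
    List.mem_singleton]

/-- the neighbour is the parent -/
theorem BF.skip (hI : IsAdjacencyList n G I)
    (h : BF n G I P i J cnt ord par) (hi : i < cnt) (hJ : J < (adjL I (ord i)).length)
    (hu : (adjL I (ord i))[J] = par (ord i)) : BF n G I P i (J + 1) cnt ord par where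
  cpos := h.cpos
  icnt := h.icnt
  lt := h.lt
  inj := h.inj
  o0 := h.o0
  p0 := h.p0
  pp := by
    intro m hm hm'
    obtain ⟨j, h1, h2, h3, h4⟩ := h.pp m hm hm'
    refine ⟨j, h1, h2, h3, ?_⟩
    rcases h4 with h4 | ⟨h4, h5⟩
    · exact Or.inl h4
    · exact Or.inr ⟨h4, (mem_take_succ hJ).2 (Or.inl h5)⟩
  cl := h.cl
  cur := by
    intro u hu'
    rcases (mem_take_succ hJ).1 hu' with h1 | h1
    · exact h.cur u h1
    · have hmem : u ∈ adjL I (ord i) := by rw [h1]; exact List.getElem_mem hJ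
      obtain ⟨hun, _⟩ := (hI.mem ⟨ord i, h.lt i hi⟩ u).1 hmem
      rw [h1, hu] at hun ⊢
      by_cases h0 : i = 0
      · subst h0
        rw [h.o0, h.p0] at hun
        omega
      · obtain ⟨j, h1, h2, h3, h4⟩ := h.pp i (by omega) hi
        exact ⟨j, by omega, h2.symm⟩

/-- a new vertex -/
theorem BF.new (hI : IsAdjacencyList n G I)
    (hP2 : ∀ u v, Aj G u v → (u ≠ 0 ∧ P u = v) ∨ (v ≠ 0 ∧ P v = u))
    (h : BF n G I P i J cnt ord par) (hi : i < cnt) (hJ : J < (adjL I (ord i)).length)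
    (hu : (adjL I (ord i))[J] ≠ par (ord i)) :
    BF n G I P i (J + 1) (cnt + 1) (Function.update ord cnt ((adjL I (ord i))[J]))
      (Function.update par ((adjL I (ord i))[J]) (ord i)) := by
  set u := (adjL I (ord i))[J] with hudef
  have hmem : u ∈ adjL I (ord i) := List.getElem_mem hJ
  obtain ⟨hun, hadj⟩ := (hI.mem ⟨ord i, h.lt i hi⟩ u).1 hmem
  have haj : Aj G (ord i) u := ⟨h.lt i hi, hun, hadj⟩
  -- `u` is a child of `ord i`
  have hPu : u ≠ 0 ∧ P u = ord i := by
    rcases hP2 _ _ haj with ⟨h1, h2⟩ | h1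
    · exfalso
      have hi0 : 0 < i := by
        rcases Nat.eq_zero_or_pos i with h3 | h3
        · subst h3; exact absurd h.o0 h1
        · exact h3
      obtain ⟨j, h3, h4, h5, h6⟩ := h.pp i hi0 hi
      exact hu (by rw [h4, ← h5, h2])
    · exact h1
  -- `u` is new
  have hnew : ∀ m < cnt, ord m ≠ u := by
    intro m hm hmu
    have hm0 : 0 < m := by
      rcases Nat.eq_zero_or_pos m with h3 | h3
      · subst h3; rw [h.o0] at hmu; exact absurd hmu.symm hPu.1
      · exact h3
    obtain ⟨j, h3, h4, h5, h6⟩ := h.pp m hm0 hm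
    rw [hmu, hPu.2] at h5
    have hij : i = j := h.inj i hi j (by omega) h5
    rcases h6 with h6 | ⟨h6, h7⟩
    · omega
    · rw [hmu] at h7
      have hnd := hI.nodup (ord i) (h.lt i hi)
      rw [List.mem_take_iff_getElem] at h7
      obtain ⟨k, hk, hk'⟩ := h7
      have := (List.Nodup.getElem_inj_iff hnd).1 (hk'.trans hudef)
      omega
  have ho : ∀ m < cnt, Function.update ord cnt u m = ord m := fun m hm =>
    Function.update_of_ne (by omega) _ _
  have hoc : Function.update ord cnt u cnt = u := Function.update_self _ _ _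
  have hp : ∀ m < cnt, Function.update par u (ord i) (ord m) = par (ord m) := fun m hm =>
    Function.update_of_ne (hnew m hm) _ _
  constructor
  · omega
  · have := h.icnt; omega
  · intro m hm
    rcases Nat.lt_succ_iff_lt_or_eq.1 hm with h1 | rfl
    · rw [ho m h1]; exact h.lt m h1
    · rw [hoc]; exact hun
  · intro m hm m' hm' e
    rcases Nat.lt_succ_iff_lt_or_eq.1 hm with h1 | h1 <;>
      rcases Nat.lt_succ_iff_lt_or_eq.1 hm' with h2 | h2
    · rw [ho m h1, ho m' h2] at e
      exact h.inj m h1 m' h2 e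
    · rw [ho m h1, h2, hoc] at e
      exact absurd e (hnew m h1)
    · rw [ho m' h2, h1, hoc] at e
      exact absurd e.symm (hnew m' h2)
    · omega
  · rw [ho 0 (by have := h.cpos; omega)]; exact h.o0
  · rw [Function.update_of_ne (by exact fun h => hPu.1 h.symm)]; exact h.p0
  · intro m hm hm'
    rw [ho i hi]
    rcases Nat.lt_succ_iff_lt_or_eq.1 hm' with h1 | h1
    · obtain ⟨j, h3, h4, h5, h6⟩ := h.pp m hm h1
      rw [ho m h1, hp m h1]
      refine ⟨j, h3, ?_, ?_, ?_⟩
      · rw [ho j (by omega)]; exact h4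
      · rw [ho j (by omega)]; exact h5
      · rcases h6 with h6 | ⟨h6, h7⟩
        · exact Or.inl h6
        · exact Or.inr ⟨h6, (mem_take_succ hJ).2 (Or.inl h7)⟩
    · subst h1
      rw [hoc, Function.update_self]
      refine ⟨i, hi, (ho i hi).symm, ?_, Or.inr ⟨rfl, (mem_take_succ hJ).2 (Or.inr rfl)⟩⟩
      rw [ho i hi]; exact hPu.2
  · intro m hm w hw
    have := h.icnt
    rw [ho m (by omega)] at hw
    obtain ⟨m', h1, h2⟩ := h.cl m hm w hw
    exact ⟨m', by omega, by rw [ho m' h1]; exact h2⟩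
  · intro w hw
    rw [ho i hi] at hw
    rcases (mem_take_succ hJ).1 hw with h1 | h1
    · obtain ⟨m', h1, h2⟩ := h.cur w h1
      exact ⟨m', by omega, by rw [ho m' h1]; exact h2⟩
    · exact ⟨cnt, by omega, by rw [hoc, h1]⟩

theorem BF.next (hI : IsAdjacencyList n G I) (h : BF n G I P i (adjL I (ord i)).length cnt ord par)
    (hi : i < cnt) : BF n G I P (i + 1) 0 cnt ord par where
  cpos := h.cpos
  icnt := hi
  lt := h.lt
  inj := h.inj
  o0 := h.o0
  p0 := h.p0
  pp := by
    intro m hm hm'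
    obtain ⟨j, h1, h2, h3, h4⟩ := h.pp m hm hm'
    exact ⟨j, h1, h2, h3, Or.inl (by rcases h4 with h4 | ⟨h4, _⟩ <;> omega)⟩
  cl := by
    intro m hm u hu
    rcases Nat.lt_succ_iff_lt_or_eq.1 hm with h1 | rfl
    · exact h.cl m h1 u hu
    · apply h.cur u
      rw [List.take_length]
      obtain ⟨h2, h3, h4⟩ := hu
      exact (hI.mem ⟨ord m, h2⟩ u).2 ⟨h3, h4⟩
  cur := by intro u hu; simp at hu

theorem BF.fin (hn : 1 ≤ n) (hP1 : ∀ u < n, u ≠ 0 → Aj G u (P u))
    (hP2 : ∀ u v, Aj G u v → (u ≠ 0 ∧ P u = v) ∨ (v ≠ 0 ∧ P v = u))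
    (h : BF n G I P n J cnt ord par) : Rooting n ord par ∧ AdjPar n G par := by
  have hc : cnt = n := le_antisymm h.le h.icnt
  subst hc
  have hR : Rooting cnt ord par :=
    { pos := hn
      ord_lt := h.lt
      ord_inj := h.inj
      ord_zero := h.o0
      par_zero := h.p0
      par_ord := by
        intro m hm hm'
        obtain ⟨j, h1, h2, _⟩ := h.pp m hm hm'
        exact ⟨j, h1, h2⟩ }
  have hpar : ∀ u < cnt, u ≠ 0 → par u = P u := by
    intro u hu h0
    obtain ⟨idx, h1, -⟩ := hR.exists_idx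
    have h2 := h1 u hu
    have h3 : 0 < idx u := by
      rcases Nat.eq_zero_or_pos (idx u) with h3 | h3
      · rw [h3, h.o0] at h2; exact absurd h2.2.symm h0
      · exact h3
    obtain ⟨j, _, h4, h5, _⟩ := h.pp _ h3 h2.1
    rw [h2.2] at h4 h5
    rw [h4, h5]
  refine ⟨hR, ?_⟩
  intro u v
  constructor
  · intro ha
    rcases hP2 u v ⟨u.2, v.2, ha⟩ with ⟨h1, h2⟩ | ⟨h1, h2⟩
    · exact Or.inl (by rw [hpar u u.2 h1]; exact h2)
    · exact Or.inr (by rw [hpar v v.2 h1]; exact h2)
  · have key : ∀ u v : Fin cnt, par u = v → G.Adj u v := by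
      intro u v huv
      have h0 : (u : ℕ) ≠ 0 := by
        intro h0
        rw [h0, h.p0] at huv
        have := v.2
        omega
      rw [hpar u u.2 h0] at huv
      obtain ⟨h1, h2, h3⟩ := hP1 u u.2 h0
      have e : (⟨P u, h2⟩ : Fin cnt) = v := Fin.ext huv
      rw [e] at h3
      exact h3
    rintro (h1 | h1)
    · exact key u v h1
    · exact (key v u h1).symm

end Pool.Agent.L7h86.UM
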