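import Mathlib
import Pool.Agent.L7h11.UM.Stm
import Pool.Agent.L7h86.UM.Bf

set_option autoImplicit false

namespace Pool.Agent.L7h86.UM

open Pool.Agent.L7h11.UM

/-- a new vertex is found -/
def newv : Cm :=
  .seq (.put 2 (.v 14) (.v 12)) (.seq (.put 1 (.v 10) (.v 14)) (.set 10 (.add (.v 10) (.c 1))))

/-- treat one neighbour -/
def inner : Cm :=
  .seq (.set 14 (.get 0 (.v 13)))
    (.seq (.ite (.c 0) (.add (.sub (.v 14) (.get 2 (.v 12))) (.sub (.get 2 (.v 12)) (.v 14)))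
      newv .skip) (.set 13 (.add (.v 13) (.c 1))))

/-- treat one vertex -/
def outer : Cm :=
  .seq (.set 12 (.get 1 (.v 11))) (.seq (.set 13 (.get 0 (.v 12)))
    (.seq (.loop (.v 13) (.get 0 (.add (.v 12) (.c 1))) inner) (.set 11 (.add (.v 11) (.c 1)))))

/-- breadth first search -/
def bfs : Cm :=
  .seq (.put 2 (.c 0) (.v 0)) (.seq (.set 10 (.c 1)) (.loop (.v 11) (.v 10) outer))

@[simp] theorem var_setV (s : S) (x k y : ℕ) :
    (s.setV x k).var y = if y = x then k else s.var y := by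
  simp [S.setV, Function.update_apply]

@[simp] theorem arr_setV (s : S) (x k : ℕ) : (s.setV x k).arr = s.arr := rfl

@[simp] theorem var_putA (s : S) (q i k : ℕ) : (s.putA q i k).var = s.var := rfl

theorem arr_putA (s : S) (q i k p : ℕ) :
    (s.putA q i k).arr p = if p = q then Function.update (s.arr q) i k else s.arr p := by
  unfold S.putA
  by_cases h : p = q
  · subst h; simp
  · simp [h]

/-- the invariant -/
structure Inv (n : ℕ) (G : SimpleGraph (Fin n)) (I P : ℕ → ℕ) (i J : ℕ) (s : S) : Prop where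
  v0 : s.var 0 = n
  a0 : s.arr 0 = I
  z : ∀ q, 3 ≤ q → s.arr q = fun _ => 0
  v11 : s.var 11 = i
  bf : BF n G I P i J (s.var 10) (s.arr 1) (s.arr 2)

/-- time for the first vertices -/
def tau (I ord : ℕ → ℕ) (i : ℕ) : ℕ := ∑ m ∈ Finset.range i, (7 * (adjL I (ord m)).length + 5)

variable {n : ℕ} {G : SimpleGraph (Fin n)} {I P : ℕ → ℕ}

theorem Inv.par_le {i J : ℕ} {s : S} (h : Inv n G I P i J s) {m : ℕ} (hm : m < s.var 10) :
    s.arr 2 (s.arr 1 m) ≤ n := by
  rcases Nat.eq_zero_or_pos m with rfl | h0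
  · rw [h.bf.o0, h.bf.p0]
  · obtain ⟨j, h1, h2, _⟩ := h.bf.pp m h0 hm
    rw [h2]
    exact (h.bf.lt j (by omega)).le

theorem adjL_getElem {v J : ℕ} (hJ : J < (adjL I v).length) : (adjL I v)[J] = I (I v + J) := by
  simp [adjL, List.getElem_range']

theorem mono_le {m m' : ℕ} (hI : IsAdjacencyList n G I) (h : m ≤ m') (hm : m' ≤ n) :
    I m ≤ I m' := by
  induction m' with
  | zero =>
    obtain rfl : m = 0 := by omega
    exact le_rfl
  | succ k ih =>
    rcases Nat.lt_succ_iff_lt_or_eq.1 (Nat.lt_succ_of_le h) with h1 | rfl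
    · exact (ih (by omega) (by omega)).trans (hI.mono k (by omega))
    · exact le_rfl

theorem inner_ok {W i J : ℕ} {s₀ : S} (hW : 20 * (n + 1) ≤ W) (hlast : I n = 3 * n - 1)
    (hI : IsAdjacencyList n G I)
    (hP2 : ∀ u v, Aj G u v → (u ≠ 0 ∧ P u = v) ∨ (v ≠ 0 ∧ P v = u))
    (hJ : J < (adjL I (s₀.arr 1 i)).length) {s : S} (h : Inv n G I P i J s) (hi : i < s.var 10)
    (h12 : s.var 12 = s₀.arr 1 i) (h13 : s.var 13 = I (s₀.arr 1 i) + J)
    (hs : ∀ m ≤ i, s.arr 1 m = s₀.arr 1 m) :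
    Ht (64 * (n + 1)) W inner s 6 (fun s' => Inv n G I P i (J + 1) s' ∧ i < s'.var 10 ∧
      s'.var 12 = s₀.arr 1 i ∧ s'.var 13 = I (s₀.arr 1 i) + (J + 1) ∧
      ∀ m ≤ i, s'.arr 1 m = s₀.arr 1 m) := by
  set v := s₀.arr 1 i with hv
  have hsi : s.arr 1 i = v := hs i le_rfl
  have hvn : v < n := by rw [← hsi]; exact h.bf.lt i hi
  have hlen := length_adjL I v
  have hJ' : I v + J < I (v + 1) := by omega
  have hIv : I (v + 1) ≤ 3 * n - 1 := by
    rw [← hlast]; exact mono_le hI (by omega) le_rfl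
  have hu : (adjL I v)[J] = I (I v + J) := adjL_getElem hJ
  have hmem : I (I v + J) ∈ adjL I v := by rw [← hu]; exact List.getElem_mem hJ
  obtain ⟨hun, _⟩ := (hI.mem ⟨v, hvn⟩ _).1 hmem
  have hcn := h.bf.le
  have hpl := h.par_le hi
  rw [hsi] at hpl
  have h0 := h.v0
  have ha0 := h.a0
  show Ht (64 * (n + 1)) W (.seq _ _) s (1 + (4 + 1)) _
  refine Ht.seq (Ht.set ?_ ?_)
  · simp only [Ex.ok, Ex.ev, ha0, h13]
    refine ⟨?_, ?_, ?_, ?_⟩ <;> omega
  simp only [Ex.ev, ha0, h13]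
  refine Ht.seq (T₁ := 3 + 1) (Ht.ite ?_ ?_ ?_ ?_)
  · simp only [Ex.ok]; omega
  · simp [Ex.ok, Ex.ev, h12]
    refine ⟨⟨?_, ?_, ?_, ?_, ?_⟩, ?_⟩ <;> omega
  · intro hlt
    simp [Ex.ev, h12] at hlt
    have hne : (adjL I (s.arr 1 i))[J]'(by rw [hsi]; exact hJ) ≠ s.arr 2 (s.arr 1 i) := by
      simp only [hsi, hu]
      omega
    have hnew := h.bf.new hI hP2 hi (by rw [hsi]; exact hJ) hne
    simp only [hsi, hu] at hnew
    show Ht (64 * (n + 1)) W (.seq _ _) _ (1 + (1 + 1)) _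
    refine Ht.seq (Ht.put ?_ ?_ ?_ ?_ ?_ ?_)
    · simp [Ex.ok]; omega
    · simp [Ex.ev]; omega
    · simp [Ex.ev]; omega
    · simp [Ex.ok, h12]; omega
    · simp [Ex.ev, h12]; omega
    refine Ht.seq (Ht.put ?_ ?_ ?_ ?_ ?_ ?_)
    · simp [Ex.ok]; omega
    · simp [Ex.ev]; omega
    · simp [Ex.ev]; omega
    · simp [Ex.ok]; omega
    · simp [Ex.ev]; omega
    refine Ht.set ?_ ?_
    · simp [Ex.ok, Ex.ev]; omega
    refine Ht.set ?_ ?_
    · simp [Ex.ok, Ex.ev, h13]; omega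
    simp only [Ex.ev]
    refine ⟨⟨?_, ?_, ?_, ?_, ?_⟩, ?_, ?_, ?_, ?_⟩
    · simpa using h0
    · simp [arr_putA, ha0]
    · intro q hq
      simp [arr_putA]
      rw [if_neg (by omega), if_neg (by omega)]
      exact h.z q hq
    · simpa using h.v11
    · simp [arr_putA, h12]
      exact hnew
    · simp; omega
    · simpa using h12
    · simp [h13]; omega
    · intro m hm
      simp [arr_putA]
      rw [Function.update_of_ne (by omega)]
      exact hs m hm
  · intro hlt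
    simp [Ex.ev, h12] at hlt
    have he : (adjL I (s.arr 1 i))[J]'(by rw [hsi]; exact hJ) = s.arr 2 (s.arr 1 i) := by
      simp only [hsi, hu]
      omega
    have hnew := h.bf.skip hI hi (by rw [hsi]; exact hJ) he
    refine (Ht.skip ?_).mono (Nat.zero_le _) fun _ h => h
    refine Ht.set ?_ ?_
    · simp [Ex.ok, Ex.ev, h13]; omega
    simp only [Ex.ev]
    refine ⟨⟨?_, ?_, ?_, ?_, ?_⟩, ?_, ?_, ?_, ?_⟩
    · simpa using h0
    · simp [ha0]
    · intro q hq
      simpa using h.z q hq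
    · simpa using h.v11
    · simpa using hnew
    · simpa using hi
    · simpa using h12
    · simp [h13]; omega
    · intro m hm
      simpa using hs m hm

theorem outer_ok {W i : ℕ} (hn : 1 ≤ n) (hW : 20 * (n + 1) ≤ W) (hlast : I n = 3 * n - 1)
    (hG : G.IsTree) (hI : IsAdjacencyList n G I)
    (hP2 : ∀ u v, Aj G u v → (u ≠ 0 ∧ P u = v) ∨ (v ≠ 0 ∧ P v = u)) (hin : i < n)
    {s : S} (h : Inv n G I P i 0 s) :
    Ht (64 * (n + 1)) W outer s (7 * (adjL I (s.arr 1 i)).length + 4) (fun s' =>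
      Inv n G I P (i + 1) 0 s' ∧ tau I (s'.arr 1) (i + 1) = tau I (s.arr 1) (i + 1)) := by
  have hi := h.bf.notStuck hn hG hin
  set v := s.arr 1 i with hv
  have hvn : v < n := h.bf.lt i hi
  have hcn := h.bf.le
  have h0 := h.v0
  have ha0 := h.a0
  have h11 := h.v11
  have hlen := length_adjL I v
  have hmono := hI.mono v hvn
  have hIv : I (v + 1) ≤ 3 * n - 1 := by
    rw [← hlast]; exact mono_le hI (by omega) le_rfl
  refine Ht.mono (T := 1 + (1 + ((7 * (adjL I v).length + 1) + 1))) ?_ (by omega) (fun _ h => h)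
  refine Ht.seq (Ht.set ?_ ?_)
  · simp only [Ex.ok, Ex.ev, h11]
    refine ⟨?_, ?_, ?_, ?_⟩ <;> omega
  simp only [Ex.ev, h11, ← hv]
  refine Ht.seq (Ht.set ?_ ?_)
  · simp [Ex.ok, Ex.ev, ha0]
    refine ⟨?_, ?_, ?_⟩ <;> omega
  simp [Ex.ev, ha0]
  refine Ht.seq ?_
  have hloop := Ht.loop (N := 64 * (n + 1)) (W := W) (a := .v 13)
    (b := .get 0 (.add (.v 12) (.c 1))) (c := inner)
    (Q := fun s' => Ht (64 * (n + 1)) W (.set 11 (.add (.v 11) (.c 1))) s' 1 (fun s' =>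
      Inv n G I P (i + 1) 0 s' ∧ tau I (s'.arr 1) (i + 1) = tau I (s.arr 1) (i + 1)))
    (adjL I v).length
    (fun J s' => Inv n G I P i J s' ∧ i < s'.var 10 ∧ s'.var 12 = v ∧ s'.var 13 = I v + J ∧
      ∀ m ≤ i, s'.arr 1 m = s.arr 1 m) (fun _ => 6) ?_ ?_ (s := (s.setV 12 v).setV 13 (I v)) ?_
  · refine hloop.mono ?_ (fun _ h => h)
    simp; omega
  · rintro J hJ s' ⟨b1, b2, b3, b4, b5⟩
    have hJ2 : I v + J < I (v + 1) := by omega
    refine ⟨?_, ?_, ?_, ?_⟩
    · simp [Ex.ok]; omega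
    · simp [Ex.ok, Ex.ev, b1.a0, b3]
      refine ⟨?_, ?_, ?_⟩ <;> omega
    · simp [Ex.ev, b1.a0, b3, b4]; omega
    · exact inner_ok (s₀ := s) hW hlast hI hP2 hJ b1 b2 b3 b4 b5
  · rintro s' ⟨b1, b2, b3, b4, b5⟩
    refine ⟨?_, ?_, ?_, ?_⟩
    · simp [Ex.ok]; omega
    · simp [Ex.ok, Ex.ev, b1.a0, b3]
      refine ⟨?_, ?_, ?_⟩ <;> omega
    · simp [Ex.ev, b1.a0, b3, b4]; omega
    · have hb := b1.v11
      refine Ht.set ?_ ⟨⟨?_, ?_, ?_, ?_, ?_⟩, ?_⟩
      · simp [Ex.ok, Ex.ev]; omega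
      · simpa using b1.v0
      · simpa using b1.a0
      · intro q hq
        simpa using b1.z q hq
      · simp [Ex.ev, hb]
      · have := b1.bf
        rw [show (adjL I v).length = (adjL I (s'.arr 1 i)).length by rw [b5 i le_rfl]] at this
        simpa using this.next hI b2
      · unfold tau
        refine Finset.sum_congr rfl fun m hm => ?_
        have hm' := Finset.mem_range.1 hm
        simp [b5 m (by omega)]
  · refine ⟨⟨?_, ?_, ?_, ?_, ?_⟩, ?_, ?_, ?_, ?_⟩
    · simpa using h0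
    · simpa using ha0
    · intro q hq
      simpa using h.z q hq
    · simpa using h11
    · simpa using h.bf
    · simpa using hi
    · simp
    · simp
    · intro m _
      simp

theorem tau_eq (hn : 1 ≤ n) (hlast : I n = 3 * n - 1) (hI : IsAdjacencyList n G I)
    {ord par : ℕ → ℕ} (hR : Rooting n ord par) : tau I ord n = 19 * n - 14 := by
  classical
  have h1 : ∑ m ∈ Finset.range n, (adjL I (ord m)).length =
      ∑ v ∈ Finset.range n, (adjL I v).length := by
    obtain ⟨idx, h1, h2⟩ := hR.exists_idx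
    refine Finset.sum_nbij' ord idx ?_ ?_ ?_ ?_ ?_
    · intro m hm
      have := hR.ord_lt m (by simpa using hm)
      simpa using this
    · intro v hv
      have := (h1 v (by simpa using hv)).1
      simpa using this
    · intro m hm
      exact h2 m (by simpa using hm)
    · intro v hv
      exact (h1 v (by simpa using hv)).2
    · intro m _
      rfl
  have h2 : ∀ m ≤ n, I m = I 0 + ∑ v ∈ Finset.range m, (adjL I v).length := by
    intro m
    induction m with
    | zero => simp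
    | succ m ih =>
      intro hm
      rw [Finset.sum_range_succ, length_adjL]
      have := ih (by omega)
      have := hI.mono m (by omega)
      omega
  have h3 := h2 n le_rfl
  rw [hlast, hI.first] at h3
  unfold tau
  rw [Finset.sum_add_distrib, ← Finset.mul_sum, h1]
  simp
  omega

theorem s_PH1 : S_PH1 := by
  refine ⟨bfs, 20, ?_⟩
  intro n G I W hn hG hI hW
  obtain ⟨P, hP1, hP2⟩ := exists_parent hn hG
  have hlast := last_eq hn hG hI
  refine Ht.mono (T := 1 + (1 + (19 * n - 14 + 1))) ?_ (by omega) (fun _ h => h)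
  refine Ht.seq (Ht.put ?_ ?_ ?_ ?_ ?_ ?_)
  · simp [Ex.ok]; omega
  · simp [Ex.ev]
  · simp [Ex.ev]; omega
  · simp [Ex.ok, Init]; omega
  · simp [Ex.ev, Init]; omega
  refine Ht.seq (Ht.set ?_ ?_)
  · simp [Ex.ok]; omega
  simp only [Ex.ev]
  refine loopA n (19 * n - 14 + 1) (fun k τ s => Inv n G I P k 0 s ∧ τ = tau I (s.arr 1) k) ?_ ?_ ?_
  · rintro k hk τ s ⟨h1, h2⟩
    have hi := h1.bf.notStuck hn hG hk
    have hcn := h1.bf.le
    have h11 := h1.v11
    refine ⟨?_, ?_, ?_, 7 * (adjL I (s.arr 1 k)).length + 4, ?_⟩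
    · simp [Ex.ok]; omega
    · simp [Ex.ok]; omega
    · simp [Ex.ev]; omega
    · refine (outer_ok hn hW hlast hG hI hP2 hk h1).mono le_rfl ?_
      rintro s' ⟨h3, h4⟩
      refine ⟨h3, ?_⟩
      rw [h4, h2]
      unfold tau
      rw [Finset.sum_range_succ]
      ring
  · rintro τ s ⟨h1, h2⟩
    have hcn := h1.bf.le
    have hic := h1.bf.icnt
    have h11 := h1.v11
    obtain ⟨h3, h4⟩ := h1.bf.fin hn hP1 hP2
    refine ⟨?_, ?_, ?_, ⟨h1.v0, h1.a0, h3, h4, h1.z⟩, ?_⟩
    · simp [Ex.ok]; omega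
    · simp [Ex.ok]; omega
    · simp [Ex.ev]; omega
    · rw [h2, tau_eq hn hlast hI h3]
  · refine ⟨⟨?_, ?_, ?_, ?_, ?_⟩, ?_⟩
    · simp [Init]
    · simp [arr_putA, Init]
    · intro q hq
      simp [arr_putA, Init]
      rw [if_neg (by omega)]
      funext i
      simp; omega
    · simp [Init]
    · simp [arr_putA, Init]
      exact BF.start hn rfl (by simp)
    · simp [tau]

end Pool.Agent.L7h86.UM
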