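import Mathlib
import Pool.Agent.L7h11.UM.Stm
import Pool.Agent.L7h11.UM.Siz
import Pool.Agent.L7h86.UM.Ph1

set_option autoImplicit false

namespace Pool.Agent.L7h86.UM

open Pool.Agent.L7h11.UM

/-! ### The classes -/

theorem mem_clsL {n : ℕ} {ord par : ℕ → ℕ} (hR : Rooting n ord par) {j v : ℕ} :
    v ∈ clsL n ord par j ↔ v < n ∧ 2 ^ j ≤ sz n par v ∧ sz n par v < 2 ^ (j + 1) := by
  obtain ⟨idx, h1, h2⟩ := hR.exists_idx
  unfold clsL
  rw [List.mem_filter, List.mem_map]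
  constructor
  · rintro ⟨⟨i, hi, rfl⟩, h⟩
    have hi' := List.mem_range.1 hi
    exact ⟨hR.ord_lt _ (by omega), by simpa using h⟩
  · rintro ⟨hv, h⟩
    refine ⟨⟨n - 1 - idx v, ?_, ?_⟩, by simpa using h⟩
    · rw [List.mem_range]; omega
    · have := h1 v hv
      rw [show n - 1 - (n - 1 - idx v) = idx v by omega]
      exact this.2

theorem nodup_clsL {n : ℕ} {ord par : ℕ → ℕ} (hR : Rooting n ord par) (j : ℕ) :
    (clsL n ord par j).Nodup := by
  unfold clsL
  apply List.Nodup.filter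
  rw [List.nodup_map_iff_inj_on List.nodup_range]
  intro x hx y hy h
  have hx' := List.mem_range.1 hx
  have hy' := List.mem_range.1 hy
  have := hR.ord_inj _ (by omega) _ (by omega) h
  omega

theorem par_le {n : ℕ} {ord par : ℕ → ℕ} (hR : Rooting n ord par) {v : ℕ} (hv : v < n) :
    par v ≤ n := by
  obtain ⟨idx, h1, h2⟩ := hR.exists_idx
  by_cases h0 : v = 0
  · subst h0; rw [hR.par_zero]
  · exact (hR.par_idx h1 h2 hv (Or.inr h0)).2.1.le

theorem Imono {n : ℕ} {I ord par : ℕ → ℕ} (hD : Dat n I ord par) {m m' : ℕ} (h : m ≤ m')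
    (hm : m' ≤ n) : I m ≤ I m' := by
  induction m' with
  | zero =>
    obtain rfl : m = 0 := by omega
    exact le_rfl
  | succ k ih =>
    rcases Nat.lt_succ_iff_lt_or_eq.1 (Nat.lt_succ_of_le h) with h1 | rfl
    · exact (ih (by omega) (by omega)).trans (hD.mono k (by omega))
    · exact le_rfl

theorem sum_range_getD (f : ℕ → ℕ) (l : List ℕ) :
    ∑ k ∈ Finset.range l.length, f (l.getD k 0) = (l.map f).sum := by
  induction l with
  | nil => simp
  | cons a l ih =>
    simp only [List.length_cons, Finset.sum_range_succ', List.map_cons, List.sum_cons]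
    simp only [List.getD_cons_succ, List.getD_cons_zero, ih]
    exact add_comm _ _

/-! ### Buckets -/

theorem chain_update {nx : ℕ → ℕ} {c y : ℕ} : ∀ {l : List ℕ} {x : ℕ}, c ∉ l → Chain nx x l →
    Chain (Function.update nx c y) x l := by
  intro l
  induction l with
  | nil => intro x _ h; exact h
  | cons b l ih =>
    intro x hc h
    rw [List.mem_cons, not_or] at hc
    refine ⟨h.1, ?_⟩
    rw [Function.update_of_ne (fun h => hc.1 h.symm)]
    exact ih hc.2 h.2

/-- the buckets `0, ..., B` hold the vertices given by `A` -/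
def BK (nx h : ℕ → ℕ) (A : ℕ → ℕ → Prop) (B n : ℕ) : Prop :=
  ∀ κ ≤ B, ∃ l : List ℕ, Chain nx (h κ) l ∧ l.Nodup ∧ (∀ c, c ∈ l ↔ A κ c) ∧ ∀ c ∈ l, c < n

theorem BK.head_le {nx h : ℕ → ℕ} {A : ℕ → ℕ → Prop} {B n κ : ℕ} (hb : BK nx h A B n)
    (hκ : κ ≤ B) : h κ ≤ n := by
  obtain ⟨l, h1, -, -, h4⟩ := hb κ hκ
  cases l with
  | nil => have : h κ = 0 := h1; omega
  | cons c l =>
    have := h1.1
    have := h4 c (by simp)
    omega

theorem BK.congr {nx h : ℕ → ℕ} {A A' : ℕ → ℕ → Prop} {B n : ℕ} (hb : BK nx h A B n)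
    (hA : ∀ κ c, A κ c ↔ A' κ c) : BK nx h A' B n := by
  intro κ hκ
  obtain ⟨l, h1, h2, h3, h4⟩ := hb κ hκ
  exact ⟨l, h1, h2, fun c => (h3 c).trans (hA κ c), h4⟩

theorem BK.ins {nx h : ℕ → ℕ} {A : ℕ → ℕ → Prop} {B n c κ₀ : ℕ} (hb : BK nx h A B n)
    (hc : ∀ κ, ¬ A κ c) (hcn : c < n) (hκ₀ : κ₀ ≤ B) :
    BK (Function.update nx c (h κ₀)) (Function.update h κ₀ (c + 1))
      (fun κ c' => A κ c' ∨ (c' = c ∧ κ = κ₀)) B n := by
  intro κ hκ
  obtain ⟨l, h1, h2, h3, h4⟩ := hb κ hκ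
  have hcl : c ∉ l := fun h => hc κ ((h3 c).1 h)
  by_cases hk : κ = κ₀
  · subst hk
    refine ⟨c :: l, ⟨by simp, ?_⟩, ?_, ?_, ?_⟩
    · rw [Function.update_self]
      exact chain_update hcl h1
    · exact List.nodup_cons.2 ⟨hcl, h2⟩
    · intro c'
      rw [List.mem_cons, h3]
      constructor
      · rintro (h | h)
        · exact Or.inr ⟨h, rfl⟩
        · exact Or.inl h
      · rintro (h | ⟨h, -⟩)
        · exact Or.inr h
        · exact Or.inl h
    · intro c' hc'
      rcases List.mem_cons.1 hc' with rfl | h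
      · exact hcn
      · exact h4 c' h
  · refine ⟨l, ?_, h2, ?_, h4⟩
    · rw [Function.update_of_ne hk]
      exact chain_update hcl h1
    · intro c'
      rw [h3]
      constructor
      · exact Or.inl
      · rintro (h | ⟨-, h⟩)
        · exact h
        · exact absurd h hk

theorem am_eq {m : ℕ → ℕ} {t : ℕ} (ht : 1 ≤ t) (hm : ∀ x ≤ 2, m x ≤ 2 * (t - 1) + 1) :
    am m (-(4 * t : ℕ) : ℤ) = if 0 < m 2 then 2 else if 0 < m 1 then 1 else 0 := by
  have h0 := hm 0 (by omega)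
  have h1 := hm 1 (by omega)
  have h2 := hm 2 (by omega)
  unfold am
  push_cast
  by_cases a2 : 0 < m 2
  · rw [if_pos a2, if_neg (by omega), if_neg (by omega), if_pos (by omega)]
  · rw [if_neg a2]
    by_cases a1 : 0 < m 1
    · rw [if_pos a1, if_neg (by omega), if_pos (by omega)]
    · rw [if_neg a1]
      by_cases a0 : m 0 ≠ 0
      · rw [if_pos (by omega)]
      · rw [if_neg (by omega), if_neg (by omega), if_neg (by omega)]

theorem MM_le {n : ℕ} {ord par : ℕ → ℕ} (hR : Rooting n ord par) {a T c t : ℕ} (hc : c < n)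
    (ht : sz n par c < t) (x : ℕ) : MM n par a T c x ≤ 2 * (t - 1) + 1 := by
  obtain ⟨-, -, -, -, -, h1, h2⟩ := s_siz n ord par hR
  have h3 := h1 c hc x a
  have h4 := h2 c hc T x a
  unfold MM
  omega

end Pool.Agent.L7h86.UM
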