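import Mathlib
import Pool.Agent.L7h86.UM.IniA

set_option autoImplicit false

namespace Pool.Agent.L7h86.UM

open Pool.Agent.L7h11.UM

/-- array of `tabQ T` -/
def QA (T : ℕ) : ℕ := if T = 1 then 30 else 20

/-- worth of the child `var 15` with the value `x` -/
def mE (a T x : ℕ) : Ex :=
  .ifLt (.get (10 + 3 * x + a) (.v 15)) (.get (QA T + 3 * x + a) (.v 15))
    (.get (QA T + 3 * x + a) (.v 15)) (.get (10 + 3 * x + a) (.v 15))

/-- put `var 15` into the bucket of kind `q` with the number `e` -/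
def insC (q : ℕ) (e : Ex) : Cm :=
  .seq (.set 20 e) (.seq (.put (63 + q) (.v 15) (.get (60 + q) (.v 20)))
    (.put (60 + q) (.v 20) (.add (.v 15) (.c 1))))

/-- the same if the values `x` and `y` are possible -/
def insB (q x y : ℕ) (e : Ex) : Cm :=
  .ite (.c 0) (.v (16 + x)) (.ite (.c 0) (.v (16 + y)) (insC q e) .skip) .skip

/-- number of the bucket of kind `q` -/
def kE : ℕ → Ex
  | 0 => .sub (.add (.v 11) (.add (.v 17) (.v 17))) (.add (.v 16) (.v 16))
  | 1 => .sub (.add (.v 11) (.add (.v 18) (.v 18))) (.add (.v 17) (.v 17))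
  | _ => .sub (.add (.v 11) (.v 18)) (.v 16)

/-- a light child -/
def lightC (a T : ℕ) : Cm :=
  .seq (.set 16 (mE a T 0)) (.seq (.set 17 (mE a T 1)) (.seq (.set 18 (mE a T 2))
    (.seq (.set 19 (.ifLt (.c 0) (.v 18) (.c 2) (.ifLt (.c 0) (.v 17) (.c 1) (.c 0))))
      (.seq (insB 0 0 1 (kE 0)) (.seq (insB 1 1 2 (kE 1)) (insB 2 0 2 (kE 2)))))))

/-- a child -/
def childC (a T : ℕ) : Cm :=
  .seq (.ite (.get 3 (.v 15)) (.v 1) (lightC a T) (.set 19 (.c 1)))
    (.seq (.put (40 + 2 * a + T) (.v 15) (.v 19))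
      (.put (50 + 2 * a + T) (.v 13) (.add (.get (50 + 2 * a + T) (.v 13)) (.v 19))))

/-- a neighbour -/
def nbrC (a T : ℕ) : Cm :=
  .seq (.set 15 (.get 0 (.v 14)))
    (.seq (.ite (.c 0) (.add (.sub (.v 15) (.get 2 (.v 13))) (.sub (.get 2 (.v 13)) (.v 15)))
      (childC a T) .skip) (.set 14 (.add (.v 14) (.c 1))))

/-- a vertex of the class -/
def vertC (a T : ℕ) : Cm :=
  .seq (.set 13 (.sub (.v 12) (.c 1))) (.seq (.put (50 + 2 * a + T) (.v 13) (.c 0))
    (.seq (.set 14 (.get 0 (.v 13)))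
      (.seq (.loop (.v 14) (.get 0 (.add (.v 13) (.c 1))) (nbrC a T)) (.set 12 (.get 7 (.v 13))))))

/-- clear the buckets -/
def clearC : Cm :=
  .seq (.put 60 (.v 10) (.c 0)) (.seq (.put 61 (.v 10) (.c 0)) (.seq (.put 62 (.v 10) (.c 0))
    (.set 10 (.add (.v 10) (.c 1)))))

/-- the whole initialization -/
def iniC (a T : ℕ) : Cm :=
  .seq (.set 11 (.add (.v 1) (.v 1))) (.seq (.set 11 (.add (.v 11) (.v 11)))
    (.seq (.set 10 (.c 0)) (.seq (.loop (.v 10) (.add (.v 11) (.add (.v 11) (.c 1))) clearC)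
      (.seq (.set 12 (.get 6 (.v 2))) (.loop (.c 0) (.v 12) (vertC a T))))))

/-- one bucket insertion -/
theorem insB_ok {N W B n q x y : ℕ} {e : Ex} {s : S} {A : ℕ → ℕ → Prop}
    (hx : s.var (16 + x) < W) (hy : s.var (16 + y) < W) (hn : s.var 15 < n) (hnN : n ≤ N)
    (hnW : n + 1 < W) (hB : B < N) (hBW : B < W)
    (he : s.var (16 + x) ≠ 0 → s.var (16 + y) ≠ 0 → e.ok N W s ∧ e.ev s ≤ B)
    (hb : BK (s.arr (63 + q)) (s.arr (60 + q)) A B n) (hc : ∀ κ, ¬ A κ (s.var 15)) :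
    Ht N W (insB q x y e) s 5 (fun s' => (∀ z, z ≠ 20 → s'.var z = s.var z) ∧
      (∀ p, p ≠ 60 + q → p ≠ 63 + q → s'.arr p = s.arr p) ∧
      BK (s'.arr (63 + q)) (s'.arr (60 + q)) (fun κ c' => A κ c' ∨ (c' = s.var 15 ∧
        s.var (16 + x) ≠ 0 ∧ s.var (16 + y) ≠ 0 ∧ κ = e.ev s)) B n) := by
  refine Ht.ite (T := 4) ?_ ?_ ?_ ?_
  · simp only [Ex.ok]; omega
  · simpa [Ex.ok] using hx
  · intro h1
    simp only [Ex.ev] at h1
    refine Ht.ite (T := 3) ?_ ?_ ?_ ?_
    · simp only [Ex.ok]; omega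
    · simpa [Ex.ok] using hy
    · intro h2
      simp only [Ex.ev] at h2
      obtain ⟨h3, h4⟩ := he (by omega) (by omega)
      have hh := hb.head_le h4
      refine Ht.mono (T := 1 + (1 + 1)) ?_ le_rfl (fun _ h => h)
      refine Ht.seq (Ht.set h3 ?_)
      refine Ht.seq (Ht.put ?_ ?_ ?_ ?_ ?_ ?_)
      · simp only [Ex.ok, var_setV]; simp; omega
      · simp only [Ex.ev, var_setV]; simp; omega
      · simp only [Ex.ev, var_setV]; simp; omega
      · simp [Ex.ok, Ex.ev]; omega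
      · simp [Ex.ev]; omega
      refine Ht.put ?_ ?_ ?_ ?_ ?_ ?_
      · simp [Ex.ok]; omega
      · simp [Ex.ev]; omega
      · simp [Ex.ev]; omega
      · simp [Ex.ok, Ex.ev]; omega
      · simp [Ex.ev]; omega
      refine ⟨?_, ?_, ?_⟩
      · intro z hz
        simp [hz]
      · intro p hp1 hp2
        simp [arr_putA, hp1, hp2]
      · simp only [arr_putA, Ex.ev, var_putA, var_setV, arr_setV]
        simp only [if_true, show (63 + q = 60 + q) = False by simp,
          show (60 + q = 63 + q) = False by simp, if_false, show ((15 : ℕ) = 20) = False by simp]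
        refine (hb.ins hc hn h4).congr ?_
        intro κ c'
        constructor
        · rintro (h | ⟨h, h'⟩)
          · exact Or.inl h
          · exact Or.inr ⟨h, by omega, by omega, h'⟩
        · rintro (h | ⟨h, -, -, h'⟩)
          · exact Or.inl h
          · exact Or.inr ⟨h, h'⟩
    · intro h2
      simp only [Ex.ev] at h2
      refine (Ht.skip ?_).mono (Nat.zero_le _) (fun _ h => h)
      refine ⟨fun _ _ => rfl, fun _ _ _ => rfl, hb.congr ?_⟩
      intro κ c'
      constructor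
      · exact Or.inl
      · rintro (h | ⟨-, -, h, -⟩)
        · exact h
        · omega
  · intro h1
    simp only [Ex.ev] at h1
    refine (Ht.skip ?_).mono (Nat.zero_le _) (fun _ h => h)
    refine ⟨fun _ _ => rfl, fun _ _ _ => rfl, hb.congr ?_⟩
    intro κ c'
    constructor
    · exact Or.inl
    · rintro (h | ⟨-, h, -, -⟩)
      · exact h
      · omega

/-- the value of the choice -/
noncomputable def valE (n : ℕ) (par : ℕ → ℕ) (a T t c : ℕ) : ℕ :=
  if sz n par c < t then am (MM n par a T c) (-(4 * t : ℕ) : ℤ) else 1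

/-- bucket members -/
def AA (n : ℕ) (par : ℕ → ℕ) (a T t q : ℕ) (D : ℕ → Prop) (κ c : ℕ) : Prop :=
  D c ∧ sz n par c < t ∧ KeyAt (MM n par a T c) q t κ

theorem light_ok {W n a T t : ℕ} {ord par : ℕ → ℕ} {s : S} {D : ℕ → Prop} (ha : a ≤ 2) (hT : T ≤ 1)
    (hR : Rooting n ord par) (hW : 64 * (n + 1) ≤ W) (ht : 1 ≤ t) (htn : t ≤ n)
    (hc : s.var 15 < n) (hsz : sz n par (s.var 15) < t) (h11 : s.var 11 = 4 * t)
    (htab : TabOK n par s (s.var 15)) (hD : ¬ D (s.var 15))
    (hb : ∀ q < 3, BK (s.arr (63 + q)) (s.arr (60 + q)) (AA n par a T t q D) (8 * t) n) :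
    Ht (64 * (n + 1)) W (lightC a T) s 19 (fun s' => (∀ z < 16, s'.var z = s.var z) ∧
      s'.var 19 = valE n par a T t (s.var 15) ∧
      (∀ p, ¬ (60 ≤ p ∧ p < 70) → s'.arr p = s.arr p) ∧
      ∀ q < 3, BK (s'.arr (63 + q)) (s'.arr (60 + q))
        (AA n par a T t q (fun c => D c ∨ c = s.var 15)) (8 * t) n) := by
  set c := s.var 15 with hcdef
  set m := MM n par a T c with hm
  have hmle : ∀ x, m x ≤ 2 * (t - 1) + 1 := MM_le hR hc hsz
  have hP : ∀ x ≤ 2, s.arr (10 + 3 * x + a) c = tabP n par c x a := fun x hx =>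
    (htab x hx a ha).1
  have hQ : ∀ x ≤ 2, s.arr (QA T + 3 * x + a) c = tabQ n par T c x a := by
    intro x hx
    unfold QA
    rcases Nat.le_one_iff_eq_zero_or_eq_one.1 hT with rfl | rfl
    · exact (htab x hx a ha).2.1
    · exact (htab x hx a ha).2.2
  have hmx : ∀ x, m x = max (tabP n par c x a) (tabQ n par T c x a) := fun x => rfl
  have mok : ∀ x ≤ 2, ∀ s' : S, s'.var 15 = c → s'.arr = s.arr →
      (mE a T x).ok (64 * (n + 1)) W s' ∧ (mE a T x).ev s' = m x := by
    intro x hx s' h1 h2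
    have h3 := hP x hx
    have h4 := hQ x hx
    have h5 := hmx x
    have h6 := hmle x
    simp only [mE, Ex.ok, Ex.ev, h1, h2, h3, h4]
    refine ⟨⟨⟨?_, ?_, ?_, ?_⟩, ⟨?_, ?_, ?_, ?_⟩, fun _ => ⟨?_, ?_, ?_, ?_⟩,
      fun _ => ⟨?_, ?_, ?_, ?_⟩⟩, ?_⟩ <;> try omega
    split_ifs <;> omega
  have hm0 := hmle 0
  have hm1 := hmle 1
  have hm2 := hmle 2
  have e0 : MM n par a T c 0 = m 0 := rfl
  have e1 : MM n par a T c 1 = m 1 := rfl
  have e2 : MM n par a T c 2 = m 2 := rfl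
  refine Ht.mono (T := 1 + (1 + (1 + (1 + (5 + (5 + 5)))))) ?_ le_rfl (fun _ h => h)
  refine Ht.seq (Ht.set (mok 0 (by omega) s hcdef.symm rfl).1 ?_)
  rw [(mok 0 (by omega) s hcdef.symm rfl).2]
  refine Ht.seq (Ht.set (mok 1 (by omega) _ (by simp [hcdef]) (by simp)).1 ?_)
  rw [(mok 1 (by omega) _ (by simp [hcdef]) (by simp)).2]
  refine Ht.seq (Ht.set (mok 2 (by omega) _ (by simp [hcdef]) (by simp)).1 ?_)
  rw [(mok 2 (by omega) _ (by simp [hcdef]) (by simp)).2]
  set s3 := ((s.setV 16 (m 0)).setV 17 (m 1)).setV 18 (m 2) with hs3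
  have hev : (Ex.ifLt (.c 0) (.v 18) (.c 2) (.ifLt (.c 0) (.v 17) (.c 1) (.c 0))).ev s3 =
      valE n par a T t c := by
    unfold valE
    rw [if_pos hsz, am_eq ht (fun x _ => hmle x)]
    simp [Ex.ev, hs3]
  refine Ht.seq (Ht.set ?_ ?_)
  · simp [Ex.ok, Ex.ev, hs3]
    refine ⟨?_, ?_, ?_, ?_⟩
    · omega
    · omega
    · intro _; omega
    · intro _
      refine ⟨?_, ?_⟩ <;> omega
  rw [hev]
  set s4 := s3.setV 19 (valE n par a T t c) with hs4
  have v4 : ∀ z < 16, s4.var z = s.var z := by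
    intro z hz
    simp only [hs4, hs3, var_setV]
    rw [if_neg (by omega), if_neg (by omega), if_neg (by omega), if_neg (by omega)]
  have v16 : s4.var 16 = m 0 := by simp [hs4, hs3]
  have v17 : s4.var 17 = m 1 := by simp [hs4, hs3]
  have v18 : s4.var 18 = m 2 := by simp [hs4, hs3]
  have v19 : s4.var 19 = valE n par a T t c := by simp [hs4]
  have a4 : s4.arr = s.arr := by simp [hs4, hs3]
  have v15 : s4.var 15 = c := v4 15 (by omega)
  have v11 : s4.var 11 = 4 * t := by rw [v4 11 (by omega)]; exact h11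
  have hnew : ∀ q κ, ¬ AA n par a T t q D κ c := fun q κ h => hD h.1
  -- first kind
  refine Ht.seq ((insB_ok (n := n) (B := 8 * t) (A := AA n par a T t 0 D) (by simp [v16]; omega)
    (by simp [v17]; omega) (by rw [v15]; exact hc) (by omega) (by omega) (by omega) (by omega)
    ?_ (by rw [a4]; exact hb 0 (by omega)) (by rw [v15]; exact hnew 0)).mono le_rfl ?_)
  · intro _ _
    simp only [kE, Ex.ok, Ex.ev, v11, v16, v17]
    refine ⟨⟨⟨?_, ⟨?_, ?_, ?_⟩, ?_⟩, ?_, ?_, ?_⟩, ?_⟩ <;> omega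
  rintro s5 ⟨b1, b2, b3⟩
  have ev0 : (kE 0).ev s4 = 4 * t + 2 * m 1 - 2 * m 0 := by
    simp only [kE, Ex.ev, v11, v16, v17]; omega
  have w : ∀ z, z ≠ 20 → s5.var z = s4.var z := b1
  refine Ht.seq ((insB_ok (n := n) (B := 8 * t) (A := AA n par a T t 1 D)
    (by rw [w _ (by omega)]; simp [v17]; omega)
    (by rw [w _ (by omega)]; simp [v18]; omega) (by rw [w _ (by omega), v15]; exact hc) (by omega)
    (by omega) (by omega) (by omega) ?_
    (by rw [b2 _ (by omega) (by omega), b2 _ (by omega) (by omega), a4]; exact hb 1 (by omega))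
    (by rw [w _ (by omega), v15]; exact hnew 1)).mono le_rfl ?_)
  · intro _ _
    simp only [kE, Ex.ok, Ex.ev, w 11 (by omega), w 17 (by omega), w 18 (by omega), v11, v17, v18]
    refine ⟨⟨⟨?_, ⟨?_, ?_, ?_⟩, ?_⟩, ?_, ?_, ?_⟩, ?_⟩ <;> omega
  rintro s6 ⟨c1, c2, c3⟩
  have ev1 : (kE 1).ev s5 = 4 * t + 2 * m 2 - 2 * m 1 := by
    simp only [kE, Ex.ev, w 11 (by omega), w 17 (by omega), w 18 (by omega), v11, v17, v18]; omega
  have w' : ∀ z, z ≠ 20 → s6.var z = s4.var z := fun z hz => (c1 z hz).trans (w z hz)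
  refine (insB_ok (n := n) (B := 8 * t) (A := AA n par a T t 2 D)
    (by rw [w' _ (by omega)]; simp [v16]; omega)
    (by rw [w' _ (by omega)]; simp [v18]; omega) (by rw [w' _ (by omega), v15]; exact hc) (by omega)
    (by omega) (by omega) (by omega) ?_
    (by rw [c2 _ (by omega) (by omega), c2 _ (by omega) (by omega), b2 _ (by omega) (by omega),
      b2 _ (by omega) (by omega), a4]; exact hb 2 (by omega))
    (by rw [w' _ (by omega), v15]; exact hnew 2)).mono le_rfl ?_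
  · intro _ _
    simp only [kE, Ex.ok, Ex.ev, w' 11 (by omega), w' 16 (by omega), w' 18 (by omega), v11, v16, v18]
    refine ⟨⟨⟨?_, ?_, ?_⟩, ?_⟩, ?_⟩ <;> omega
  rintro s7 ⟨d1, d2, d3⟩
  have ev2 : (kE 2).ev s6 = 4 * t + m 2 - m 0 := by
    simp only [kE, Ex.ev, w' 11 (by omega), w' 16 (by omega), w' 18 (by omega), v11, v16, v18]
  refine ⟨?_, ?_, ?_, ?_⟩
  · intro z hz
    rw [d1 z (by omega), w' z (by omega), v4 z hz]
  · rw [d1 19 (by omega), w' 19 (by omega), v19]
  · intro p hp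
    rw [d2 p (by omega) (by omega), c2 p (by omega) (by omega), b2 p (by omega) (by omega), a4]
  · intro q hq
    interval_cases q
    · rw [d2 _ (by omega) (by omega), d2 _ (by omega) (by omega), c2 _ (by omega) (by omega),
        c2 _ (by omega) (by omega)]
      refine b3.congr ?_
      intro κ c'
      rw [ev0, v15]
      simp only [v16, v17, Nat.add_zero]
      unfold AA KeyAt
      constructor
      · rintro (⟨h1, h2, h3⟩ | ⟨h1, h2, h3, h4⟩)
        · exact ⟨Or.inl h1, h2, h3⟩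
        · subst h1
          exact ⟨Or.inr rfl, hsz, Or.inl ⟨rfl, h2, h3, by omega⟩⟩
      · rintro ⟨h1 | h1, h2, h3⟩
        · exact Or.inl ⟨h1, h2, h3⟩
        · right
          subst h1
          rcases h3 with h3 | h3 | h3
          · exact ⟨rfl, h3.2.1, h3.2.2.1, by have := h3.2.2.2; omega⟩
          · omega
          · omega
    · rw [d2 _ (by omega) (by omega), d2 _ (by omega) (by omega)]
      refine c3.congr ?_
      intro κ c'
      rw [ev1, w 15 (by omega), v15, w (16 + 1) (by omega), w (16 + 2) (by omega)]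
      have e17 : s4.var (16 + 1) = m 1 := v17
      have e18 : s4.var (16 + 2) = m 2 := v18
      rw [e17, e18]
      unfold AA KeyAt
      constructor
      · rintro (⟨h1, h2, h3⟩ | ⟨h1, h2, h3, h4⟩)
        · exact ⟨Or.inl h1, h2, h3⟩
        · subst h1
          exact ⟨Or.inr rfl, hsz, Or.inr (Or.inl ⟨rfl, h2, h3, by omega⟩)⟩
      · rintro ⟨h1 | h1, h2, h3⟩
        · exact Or.inl ⟨h1, h2, h3⟩
        · right
          subst h1
          rcases h3 with h3 | h3 | h3
          · omega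
          · exact ⟨rfl, h3.2.1, h3.2.2.1, by have := h3.2.2.2; omega⟩
          · omega
    · refine d3.congr ?_
      intro κ c'
      rw [ev2, w' 15 (by omega), v15, w' (16 + 0) (by omega), w' (16 + 2) (by omega)]
      have e16 : s4.var (16 + 0) = m 0 := v16
      have e18 : s4.var (16 + 2) = m 2 := v18
      rw [e16, e18]
      unfold AA KeyAt
      constructor
      · rintro (⟨h1, h2, h3⟩ | ⟨h1, h2, h3, h4⟩)
        · exact ⟨Or.inl h1, h2, h3⟩
        · subst h1
          exact ⟨Or.inr rfl, hsz, Or.inr (Or.inr ⟨rfl, h2, h3, by omega⟩)⟩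
      · rintro ⟨h1 | h1, h2, h3⟩
        · exact Or.inl ⟨h1, h2, h3⟩
        · right
          subst h1
          rcases h3 with h3 | h3 | h3
          · omega
          · omega
          · exact ⟨rfl, h3.2.1, h3.2.2.1, by have := h3.2.2.2; omega⟩

end Pool.Agent.L7h86.UM
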