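import Mathlib
import Pool.Agent.L7h86.UM.IniB

set_option autoImplicit false

namespace Pool.Agent.L7h86.UM

open Pool.Agent.L7h11.UM

variable {n : ℕ} {I ord par : ℕ → ℕ} {a T t : ℕ}

theorem am_le (m : ℕ → ℕ) (μ : ℤ) : am m μ ≤ 2 := by
  unfold am
  split_ifs <;> omega

theorem valE_le (c : ℕ) : valE n par a T t c ≤ 2 := by
  unfold valE
  split_ifs
  · exact am_le _ _
  · omega

/-- invariant: the vertices in `D` are treated -/
structure JJ (n : ℕ) (par : ℕ → ℕ) (a T t : ℕ) (s₀ s : S) (D : ℕ → Prop) : Prop where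
  fr : Frame a T s₀ s
  v11 : s.var 11 = 4 * t
  y : ∀ c, D c → s.arr (40 + 2 * a + T) c = valE n par a T t c
  bk : ∀ q < 3, BK (s.arr (63 + q)) (s.arr (60 + q)) (AA n par a T t q D) (8 * t) n

theorem TabOK.frame {s₀ s : S} (ha : a ≤ 2) (hT : T ≤ 1) (hf : Frame a T s₀ s) {v : ℕ}
    (h : TabOK n par s₀ v) : TabOK n par s v := by
  intro x hx y hy
  obtain ⟨h1, h2, h3⟩ := h x hx y hy
  refine ⟨?_, ?_, ?_⟩
  · rw [hf.2 _ (by omega) (by omega) (by omega)]; exact h1
  · rw [hf.2 _ (by omega) (by omega) (by omega)]; exact h2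
  · rw [hf.2 _ (by omega) (by omega) (by omega)]; exact h3

theorem child_ok {W : ℕ} {s₀ s : S} {D : ℕ → Prop} (ha : a ≤ 2) (hT : T ≤ 1)
    (hR : Rooting n ord par) (hW : 64 * (n + 1) ≤ W) (ht : 1 ≤ t) (htn : t ≤ n)
    (h3 : ∀ v < n, s₀.arr 3 v = sz n par v) (h1 : s₀.var 1 = t)
    (hc : s.var 15 < n) (hv : s.var 13 < n) (hD : ¬ D (s.var 15)) (h : JJ n par a T t s₀ s D)
    (htab : sz n par (s.var 15) < t → TabOK n par s₀ (s.var 15))
    (hY : s.arr (50 + 2 * a + T) (s.var 13) + 2 < W) :
    Ht (64 * (n + 1)) W (childC a T) s 22 (fun s' => (∀ z < 16, s'.var z = s.var z) ∧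
      JJ n par a T t s₀ s' (fun c => D c ∨ c = s.var 15) ∧
      s'.arr (50 + 2 * a + T) = Function.update (s.arr (50 + 2 * a + T)) (s.var 13)
        (s.arr (50 + 2 * a + T) (s.var 13) + valE n par a T t (s.var 15))) := by
  have hs3 : s.arr 3 = s₀.arr 3 := h.fr.2 3 (by omega) (by omega) (by omega)
  have hs1 : s.var 1 = t := by rw [h.fr.1 1 (by omega)]; exact h1
  have hsz : s.arr 3 (s.var 15) = sz n par (s.var 15) := by rw [hs3]; exact h3 _ hc
  have hszn : sz n par (s.var 15) ≤ n := ((s_siz n ord par hR).2.2.1 _ hc).2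
  have hval := valE_le (n := n) (par := par) (a := a) (T := T) (t := t) (s.var 15)
  refine Ht.mono (T := (19 + 1) + (1 + 1)) ?_ le_rfl (fun _ h => h)
  -- common end
  have key : ∀ s1 : S, (∀ z < 16, s1.var z = s.var z) →
      s1.var 19 = valE n par a T t (s.var 15) →
      (∀ p, ¬ (60 ≤ p ∧ p < 70) → s1.arr p = s.arr p) →
      (∀ q < 3, BK (s1.arr (63 + q)) (s1.arr (60 + q))
        (AA n par a T t q (fun c => D c ∨ c = s.var 15)) (8 * t) n) →
      Ht (64 * (n + 1)) W (.seq (.put (40 + 2 * a + T) (.v 15) (.v 19))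
        (.put (50 + 2 * a + T) (.v 13) (.add (.get (50 + 2 * a + T) (.v 13)) (.v 19)))) s1 (1 + 1)
        (fun s' => (∀ z < 16, s'.var z = s.var z) ∧
          JJ n par a T t s₀ s' (fun c => D c ∨ c = s.var 15) ∧
          s'.arr (50 + 2 * a + T) = Function.update (s.arr (50 + 2 * a + T)) (s.var 13)
            (s.arr (50 + 2 * a + T) (s.var 13) + valE n par a T t (s.var 15))) := by
    intro s1 b1 b2 b3 b4
    have e15 := b1 15 (by omega)
    have e13 := b1 13 (by omega)
    have eY : s1.arr (50 + 2 * a + T) = s.arr (50 + 2 * a + T) := b3 _ (by omega)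
    have hne : (50 + 2 * a + T = 40 + 2 * a + T) = False := by
      simp only [eq_iff_iff, iff_false]; omega
    refine Ht.seq (Ht.put ?_ ?_ ?_ ?_ ?_ ?_)
    · simp only [Ex.ok, e15]; omega
    · simp only [Ex.ev, e15]; omega
    · simp only [Ex.ev, e15]; omega
    · simp only [Ex.ok, b2]; omega
    · simp only [Ex.ev, b2]; omega
    refine Ht.put ?_ ?_ ?_ ?_ ?_ ?_
    · simp only [Ex.ok, var_putA, e13]; omega
    · simp only [Ex.ev, var_putA, e13]; omega
    · simp only [Ex.ev, var_putA, e13]; omega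
    · simp only [Ex.ok, Ex.ev, var_putA, e13, b2, arr_putA, hne, if_false, eY]
      refine ⟨⟨?_, ?_, ?_, ?_⟩, ?_, ?_⟩ <;> omega
    · simp only [Ex.ev, var_putA, e13, b2, arr_putA, hne, if_false, eY]
      omega
    refine ⟨?_, ⟨?_, ?_, ?_, ?_⟩, ?_⟩
    · intro z hz
      simpa using b1 z hz
    · refine ⟨?_, ?_⟩
      · intro x hx
        simp only [var_putA]
        rw [b1 x (by omega), h.fr.1 x hx]
      · intro q hq1 hq2 hq3
        simp only [arr_putA]
        rw [if_neg hq2, if_neg hq1, b3 q hq3]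
        exact h.fr.2 q hq1 hq2 hq3
    · simp only [var_putA]
      rw [b1 11 (by omega)]; exact h.v11
    · intro c hc'
      simp only [arr_putA, Ex.ev]
      rw [if_neg (by omega), if_true, e15, b2, b3 _ (by omega), Function.update_apply]
      split_ifs with he
      · rw [he]
      · exact h.y c (by tauto)
    · intro q hq
      simp only [arr_putA]
      rw [if_neg (by omega), if_neg (by omega), if_neg (by omega), if_neg (by omega)]
      exact b4 q hq
    · simp only [arr_putA, Ex.ev, var_putA, e13, b2, hne, if_false, if_true, eY]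
  refine Ht.seq (Ht.ite ?_ ?_ ?_ ?_)
  · simp only [Ex.ok, Ex.ev, hsz]
    refine ⟨?_, ?_, ?_, ?_⟩ <;> omega
  · simp only [Ex.ok, hs1]; omega
  · intro hlt
    simp only [Ex.ev, hsz, hs1] at hlt
    refine (light_ok ha hT hR hW ht htn hc hlt h.v11 (TabOK.frame ha hT h.fr (htab hlt)) hD
      h.bk).mono le_rfl ?_
    rintro s1 ⟨b1, b2, b3, b4⟩
    exact key s1 b1 b2 b3 b4
  · intro hlt
    simp only [Ex.ev, hsz, hs1] at hlt
    refine (Ht.set (Q := fun s' => Ht (64 * (n + 1)) W _ s' (1 + 1) _) ?_ ?_).mono (by omega)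
      (fun _ h => h)
    · simp only [Ex.ok]; omega
    apply key
    · intro z hz
      simp only [var_setV]
      rw [if_neg (by omega)]
    · simp only [var_setV, Ex.ev, if_true]
      unfold valE
      rw [if_neg hlt]
    · intro p _
      rfl
    · intro q hq
      refine (h.bk q hq).congr ?_
      intro κ c
      unfold AA
      constructor
      · rintro ⟨h1, h2, h3⟩
        exact ⟨Or.inl h1, h2, h3⟩
      · rintro ⟨h1 | h1, h2, h3⟩
        · exact ⟨h1, h2, h3⟩
        · rw [h1] at h2
          exact absurd h2 hlt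

/-- the treated children of `v` -/
def chJ (I par : ℕ → ℕ) (v J : ℕ) : List ℕ := ((adjL I v).take J).filter (fun c => c ≠ par v)

theorem chJ_succ {v J : ℕ} (hJ : J < (adjL I v).length) :
    chJ I par v (J + 1) = chJ I par v J ++
      if (adjL I v)[J] ≠ par v then [(adjL I v)[J]] else [] := by
  unfold chJ
  rw [List.take_add_one, List.getElem?_eq_getElem hJ, List.filter_append]
  congr 1
  by_cases h : (adjL I v)[J] = par v
  · simp [h]
  · simp [h]

theorem chJ_full {v : ℕ} : chJ I par v (adjL I v).length = chl I par v := by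
  unfold chJ chl
  rw [List.take_length]

theorem chJ_nodup (hD : Dat n I ord par) {v : ℕ} (hv : v < n) (J : ℕ) : (chJ I par v J).Nodup := by
  have := hD.nodup v hv
  unfold chl at this
  exact this.sublist ((List.take_sublist _ _).filter _)

theorem sum_val_le (l : List ℕ) :
    (l.map (valE n par a T t)).sum ≤ 2 * l.length := by
  induction l with
  | nil => simp
  | cons c l ih =>
    have := valE_le (n := n) (par := par) (a := a) (T := T) (t := t) c
    simp only [List.map_cons, List.sum_cons, List.length_cons]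
    omega

theorem chJ_length (v J : ℕ) : (chJ I par v J).length ≤ (adjL I v).length := by
  unfold chJ
  exact (List.length_filter_le _ _).trans (by simp)

/-- inner invariant -/
structure KK (n : ℕ) (I par : ℕ → ℕ) (a T t : ℕ) (s₀ s₁ : S) (v : ℕ) (D₀ : ℕ → Prop) (J : ℕ)
    (s : S) : Prop where
  jj : JJ n par a T t s₀ s (fun c => D₀ c ∨ c ∈ chJ I par v J)
  v13 : s.var 13 = v
  v14 : s.var 14 = I v + J
  Yv : s.arr (50 + 2 * a + T) v = ((chJ I par v J).map (valE n par a T t)).sum
  Yu : ∀ u, u ≠ v → s.arr (50 + 2 * a + T) u = s₁.arr (50 + 2 * a + T) u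

theorem nbr_ok {W v J : ℕ} {s₀ s₁ s : S} {D₀ : ℕ → Prop} (ha : a ≤ 2) (hT : T ≤ 1)
    (hD : Dat n I ord par) (hW : 64 * (n + 1) ≤ W) (ht : 1 ≤ t) (htn : t ≤ n)
    (h0 : s₀.arr 0 = I) (h2 : s₀.arr 2 = par)
    (h3 : ∀ v < n, s₀.arr 3 v = sz n par v) (h1 : s₀.var 1 = t) (hv : v < n)
    (htab : ∀ c < n, sz n par c < t → TabOK n par s₀ c)
    (hD₀ : ∀ c, D₀ c → par c ≠ v) (hJ : J < (adjL I v).length)
    (h : KK n I par a T t s₀ s₁ v D₀ J s) :
    Ht (64 * (n + 1)) W (nbrC a T) s 25 (KK n I par a T t s₀ s₁ v D₀ (J + 1)) := by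
  have hR := hD.root
  have hlen := length_adjL I v
  have hJ' : I v + J < I (v + 1) := by omega
  have hIv : I (v + 1) ≤ 3 * n - 1 := by
    rw [← hD.last]; exact Imono hD (by omega) le_rfl
  have hu : (adjL I v)[J] = I (I v + J) := adjL_getElem hJ
  have hmem : I (I v + J) ∈ adjL I v := by rw [← hu]; exact List.getElem_mem hJ
  have hun := hD.lt v hv _ hmem
  have hs0 : s.arr 0 = I := by rw [h.jj.fr.2 0 (by omega) (by omega) (by omega)]; exact h0
  have hs2 : s.arr 2 = par := by rw [h.jj.fr.2 2 (by omega) (by omega) (by omega)]; exact h2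
  have hp := par_le hR hv
  have h13 := h.v13
  have h14 := h.v14
  set c := I (I v + J) with hcdef
  refine Ht.mono (T := 1 + ((22 + 1) + 1)) ?_ le_rfl (fun _ h => h)
  refine Ht.seq (Ht.set ?_ ?_)
  · simp only [Ex.ok, Ex.ev, hs0, h14]
    refine ⟨?_, ?_, ?_, ?_⟩ <;> omega
  simp only [Ex.ev, hs0, h14, ← hcdef]
  refine Ht.seq (Ht.ite ?_ ?_ ?_ ?_)
  · simp only [Ex.ok]; omega
  · simp only [Ex.ok, Ex.ev, var_setV, arr_setV, hs2]
    simp only [if_true, show ((13 : ℕ) = 15) = False by simp, if_false, h13]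
    refine ⟨⟨?_, ?_, ?_, ?_, ?_⟩, ⟨⟨?_, ?_, ?_, ?_⟩, ?_⟩, ?_⟩ <;> omega
  · intro hlt
    simp only [Ex.ev, var_setV, arr_setV, hs2] at hlt
    simp only [if_true, show ((13 : ℕ) = 15) = False by simp, if_false, h13] at hlt
    have hne : c ≠ par v := by omega
    have hchl : c ∈ chl I par v := by
      unfold chl
      rw [List.mem_filter]
      exact ⟨hmem, by simpa using hne⟩
    have hpc := ((hD.mem v hv c).1 hchl).2
    have hsucc := chJ_succ (I := I) (par := par) hJ
    rw [hu, if_pos hne] at hsucc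
    have hnd := chJ_nodup hD hv (J + 1)
    rw [hsucc] at hnd
    have hcn : c ∉ chJ I par v J := by
      intro hc
      exact (List.nodup_append.1 hnd).2.2 c hc c (by simp) rfl
    have hsl := sum_val_le (n := n) (par := par) (a := a) (T := T) (t := t) (chJ I par v J)
    have hll := chJ_length (I := I) (par := par) v J
    have hfr : JJ n par a T t s₀ (s.setV 15 c) (fun c => D₀ c ∨ c ∈ chJ I par v J) := by
      refine ⟨⟨?_, ?_⟩, ?_, ?_, ?_⟩
      · intro x hx
        simp only [var_setV]
        rw [if_neg (by omega)]; exact h.jj.fr.1 x hx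
      · exact h.jj.fr.2
      · simp only [var_setV]
        rw [if_neg (by omega)]; exact h.jj.v11
      · exact h.jj.y
      · exact h.jj.bk
    have hch := child_ok (s₀ := s₀) (s := s.setV 15 c) (W := W) ha hT hR hW ht htn h3 h1
      (by simp only [var_setV, if_true]; omega)
      (by simp only [var_setV]; rw [if_neg (by omega), h13]; exact hv)
      (by simp only [var_setV, if_true]
          rintro (h4 | h4)
          · exact hD₀ c h4 hpc
          · exact hcn h4) hfr
      (by simp only [var_setV, if_true]; exact htab c hun)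
      (by simp only [var_setV, arr_setV]
          rw [if_neg (by omega), h13, h.Yv]; omega)
    refine hch.mono le_rfl ?_
    rintro s2 ⟨b1, b2, b3⟩
    simp only [var_setV, if_true, arr_setV] at b1 b2 b3
    rw [if_neg (by omega), h13] at b3
    refine Ht.set ?_ ?_
    · simp only [Ex.ok, Ex.ev]
      rw [b1 14 (by omega), if_neg (by omega), h14]
      refine ⟨?_, ?_, ?_⟩ <;> omega
    simp only [Ex.ev]
    refine ⟨⟨⟨?_, ?_⟩, ?_, ?_, ?_⟩, ?_, ?_, ?_, ?_⟩
    · intro x hx
      simp only [var_setV]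
      rw [if_neg (by omega)]; exact b2.fr.1 x hx
    · exact b2.fr.2
    · simp only [var_setV]
      rw [if_neg (by omega)]; exact b2.v11
    · intro c' hc'
      refine b2.y c' ?_
      rcases hc' with h4 | h4
      · exact Or.inl (Or.inl h4)
      · rw [hsucc, List.mem_append, List.mem_singleton] at h4
        tauto
    · intro q hq
      refine (b2.bk q hq).congr ?_
      intro κ c'
      unfold AA
      simp only [hsucc, List.mem_append, List.mem_singleton]
      tauto
    · simp only [var_setV]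
      rw [if_neg (by omega), b1 13 (by omega), if_neg (by omega)]; exact h13
    · simp only [var_setV, if_true]
      rw [b1 14 (by omega), if_neg (by omega), h14]; omega
    · simp only [arr_setV]
      rw [b3, Function.update_self, h.Yv, hsucc]
      simp
    · intro u hu'
      simp only [arr_setV]
      rw [b3, Function.update_of_ne hu']
      exact h.Yu u hu'
  · intro hlt
    simp only [Ex.ev, var_setV, arr_setV, hs2] at hlt
    simp only [if_true, show ((13 : ℕ) = 15) = False by simp, if_false, h13] at hlt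
    have he : c = par v := by omega
    have hsucc := chJ_succ (I := I) (par := par) hJ
    rw [hu, if_neg (by simpa using he), List.append_nil] at hsucc
    refine (Ht.skip ?_).mono (Nat.zero_le _) (fun _ h => h)
    refine Ht.set ?_ ?_
    · simp only [Ex.ok, Ex.ev, var_setV]
      rw [if_neg (by omega), h14]
      refine ⟨?_, ?_, ?_⟩ <;> omega
    simp only [Ex.ev]
    refine ⟨⟨⟨?_, ?_⟩, ?_, ?_, ?_⟩, ?_, ?_, ?_, ?_⟩
    · intro x hx
      simp only [var_setV]
      rw [if_neg (by omega), if_neg (by omega)]; exact h.jj.fr.1 x hx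
    · exact h.jj.fr.2
    · simp only [var_setV]
      rw [if_neg (by omega), if_neg (by omega)]; exact h.jj.v11
    · rw [hsucc]; exact h.jj.y
    · rw [hsucc]; exact h.jj.bk
    · simp only [var_setV]
      rw [if_neg (by omega), if_neg (by omega)]; exact h13
    · simp only [var_setV, if_true]
      rw [if_neg (by omega), h14]; omega
    · rw [hsucc]; exact h.Yv
    · exact h.Yu

end Pool.Agent.L7h86.UM
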