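import Mathlib
import Pool.Agent.L7h86.UM.IniC

set_option autoImplicit false

namespace Pool.Agent.L7h86.UM

open Pool.Agent.L7h11.UM

variable {n : ℕ} {I ord par : ℕ → ℕ} {a T t : ℕ}

theorem JJ.congr {s₀ s : S} {D D' : ℕ → Prop} (h : JJ n par a T t s₀ s D)
    (hD : ∀ c, D c ↔ D' c) : JJ n par a T t s₀ s D' where
  fr := h.fr
  v11 := h.v11
  y := fun c hc => h.y c ((hD c).2 hc)
  bk := fun q hq => (h.bk q hq).congr fun κ c => by unfold AA; rw [hD c]

/-- changes of variables `≥ 12` do not matter -/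
theorem JJ.setV {s₀ s : S} {D : ℕ → Prop} (h : JJ n par a T t s₀ s D) {x k : ℕ} (hx : 12 ≤ x) :
    JJ n par a T t s₀ (s.setV x k) D where
  fr := ⟨fun z hz => by
    simp only [var_setV]
    rw [if_neg (by omega)]
    exact h.fr.1 z hz, h.fr.2⟩
  v11 := by
    simp only [var_setV]
    rw [if_neg (by omega)]
    exact h.v11
  y := h.y
  bk := h.bk

/-- changes of the array of the sums do not matter -/
theorem JJ.putY {s₀ s : S} {D : ℕ → Prop} (ha : a ≤ 2) (hT : T ≤ 1)
    (h : JJ n par a T t s₀ s D) {i k : ℕ} :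
    JJ n par a T t s₀ (s.putA (50 + 2 * a + T) i k) D where
  fr := ⟨fun z hz => h.fr.1 z hz, fun q h1 h2 h3 => by
    rw [arr_putA, if_neg h2]
    exact h.fr.2 q h1 h2 h3⟩
  v11 := h.v11
  y := by
    intro c hc
    rw [arr_putA, if_neg (by omega)]
    exact h.y c hc
  bk := by
    intro q hq
    rw [arr_putA, arr_putA, if_neg (by omega), if_neg (by omega)]
    exact h.bk q hq

/-- outer invariant -/
structure OO (n : ℕ) (I ord par : ℕ → ℕ) (a T j : ℕ) (s₀ : S) (r : ℕ) (s : S) : Prop where
  jj : JJ n par a T (2 ^ j) s₀ s (fun c => c < n ∧ par c ∈ (clsL n ord par j).take r)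
  ch : Chain (s₀.arr 7) (s.var 12) ((clsL n ord par j).drop r)
  Y : ∀ v ∈ (clsL n ord par j).take r,
    s.arr (50 + 2 * a + T) v = ((chl I par v).map (valE n par a T (2 ^ j))).sum

theorem vert_ok {W r j : ℕ} {s₀ s : S} (ha : a ≤ 2) (hT : T ≤ 1)
    (hD : Dat n I ord par) (hW : 64 * (n + 1) ≤ W) (htn : 2 ^ j ≤ n)
    (hC : Ctx n I ord par s₀) (h1 : s₀.var 1 = 2 ^ j)
    (htab : ∀ c < n, sz n par c < 2 ^ j → TabOK n par s₀ c)
    (hr : r < (clsL n ord par j).length) (h : OO n I ord par a T j s₀ r s) :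
    0 < s.var 12 ∧ s.var 12 ≤ n ∧
    Ht (64 * (n + 1)) W (vertC a T) s (26 * (adjL I ((clsL n ord par j).getD r 0)).length + 5)
      (OO n I ord par a T j s₀ (r + 1)) := by
  have hR := hD.root
  have ht : 1 ≤ 2 ^ j := Nat.one_le_two_pow
  set L := clsL n ord par j with hL
  have hgd : L.getD r 0 = L[r] := by simp [hr]
  rw [hgd]
  set v := L[r] with hvdef
  have hvL : v ∈ L := List.getElem_mem hr
  have hv : v < n := ((mem_clsL hR).1 hvL).1
  have hdrop : L.drop r = v :: L.drop (r + 1) := (List.drop_eq_getElem_cons hr)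
  have hch := h.ch
  rw [hdrop] at hch
  obtain ⟨hv12, hch⟩ := hch
  have hvt : v ∉ L.take r := by
    have hnd := nodup_clsL hR j
    rw [← hL] at hnd
    intro hm
    rw [List.mem_take_iff_getElem] at hm
    obtain ⟨k, hk, hk'⟩ := hm
    have := (List.Nodup.getElem_inj_iff hnd).1 hk'
    omega
  refine ⟨by omega, by omega, ?_⟩
  have hlen := length_adjL I v
  have hmono := hD.mono v hv
  have hIv : I (v + 1) ≤ 3 * n - 1 := by
    rw [← hD.last]; exact Imono hD (by omega) le_rfl
  have f0 : ∀ s' : S, Frame a T s₀ s' → s'.arr 0 = I := by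
    intro s' hf
    rw [hf.2 0 (by omega) (by omega) (by omega)]; exact hC.a0
  have f7 : ∀ s' : S, Frame a T s₀ s' → s'.arr 7 = s₀.arr 7 := by
    intro s' hf
    rw [hf.2 7 (by omega) (by omega) (by omega)]
  refine Ht.mono (T := 1 + (1 + (1 + ((26 * (adjL I v).length + 1) + 1)))) ?_ (by omega)
    (fun _ h => h)
  refine Ht.seq (Ht.set ?_ ?_)
  · simp only [Ex.ok, hv12]; omega
  have e1 : (Ex.sub (.v 12) (.c 1)).ev s = v := by simp only [Ex.ev, hv12]; omega
  rw [e1]
  refine Ht.seq (Ht.put ?_ ?_ ?_ ?_ ?_ ?_)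
  · simp only [Ex.ok, var_setV, if_true]; omega
  · simp only [Ex.ev, var_setV, if_true]; omega
  · simp only [Ex.ev, var_setV, if_true]; omega
  · simp only [Ex.ok]; omega
  · simp only [Ex.ev]; omega
  simp only [Ex.ev, var_setV, if_true]
  have hj1 : JJ n par a T (2 ^ j) s₀ ((s.setV 13 v).putA (50 + 2 * a + T) v 0)
      (fun c => c < n ∧ par c ∈ L.take r) := (h.jj.setV (by omega)).putY ha hT
  set s1 := (s.setV 13 v).putA (50 + 2 * a + T) v 0 with hs1
  have v13 : s1.var 13 = v := by simp [hs1]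
  have hY1 : ∀ u, u ≠ v → s1.arr (50 + 2 * a + T) u = s.arr (50 + 2 * a + T) u := by
    intro u hu
    simp [hs1, arr_putA, hu]
  have hYv : s1.arr (50 + 2 * a + T) v = 0 := by simp [hs1, arr_putA]
  have hs10 := f0 s1 hj1.fr
  refine Ht.seq (Ht.set ?_ ?_)
  · simp only [Ex.ok, Ex.ev, v13, hs10]
    have := Imono hD (m := v) (m' := n) (by omega) le_rfl
    have := hD.last
    refine ⟨?_, ?_, ?_, ?_⟩ <;> omega
  simp only [Ex.ev, v13, hs10]
  refine Ht.seq ?_
  have hloop := Ht.loop (N := 64 * (n + 1)) (W := W) (a := .v 14)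
    (b := .get 0 (.add (.v 13) (.c 1))) (c := nbrC a T)
    (Q := fun s' => Ht (64 * (n + 1)) W (.set 12 (.get 7 (.v 13))) s' 1
      (OO n I ord par a T j s₀ (r + 1)))
    (adjL I v).length
    (KK n I par a T (2 ^ j) s₀ s1 v (fun c => c < n ∧ par c ∈ L.take r)) (fun _ => 25) ?_ ?_
    (s := s1.setV 14 (I v)) ?_
  · refine hloop.mono ?_ (fun _ h => h)
    simp; omega
  · intro J hJ s' hK
    have hs0 := f0 s' hK.jj.fr
    have h13 := hK.v13
    have h14 := hK.v14
    refine ⟨?_, ?_, ?_, ?_⟩
    · simp only [Ex.ok, h14]; omega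
    · simp only [Ex.ok, Ex.ev, h13, hs0]
      refine ⟨⟨?_, ?_, ?_⟩, ?_, ?_, ?_⟩ <;> omega
    · simp only [Ex.ev, h13, h14, hs0]; omega
    · exact nbr_ok ha hT hD hW ht htn hC.a0 hC.a2 hC.a3 h1 hv htab
        (fun c hc hpc => hvt (hpc ▸ hc.2)) hJ hK
  · intro s' hK
    have hs0 := f0 s' hK.jj.fr
    have hs7 := f7 s' hK.jj.fr
    have h13 := hK.v13
    have h14 := hK.v14
    refine ⟨?_, ?_, ?_, ?_⟩
    · simp only [Ex.ok, h14]; omega
    · simp only [Ex.ok, Ex.ev, h13, hs0]
      refine ⟨⟨?_, ?_, ?_⟩, ?_, ?_, ?_⟩ <;> omega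
    · simp only [Ex.ev, h13, h14, hs0]; omega
    · have hnext : s₀.arr 7 v ≤ n := by
        cases hh : L.drop (r + 1) with
        | nil => rw [hh] at hch; have : s₀.arr 7 v = 0 := hch; omega
        | cons b l =>
          rw [hh] at hch
          have h5 := hch.1
          have hb : b ∈ L := by
            apply List.mem_of_mem_drop (i := r + 1)
            rw [hh]; simp
          have := ((mem_clsL hR).1 hb).1
          omega
      refine Ht.set ?_ ⟨?_, ?_, ?_⟩
      · simp only [Ex.ok, Ex.ev, h13, hs7]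
        refine ⟨?_, ?_, ?_, ?_⟩ <;> omega
      · refine (hK.jj.setV (by omega)).congr ?_
        intro c
        rw [chJ_full, hD.mem v hv, mem_take_succ hr]
        constructor
        · rintro (⟨h5, h6⟩ | ⟨h5, h6⟩)
          · exact ⟨h5, Or.inl h6⟩
          · exact ⟨h5, Or.inr h6⟩
        · rintro ⟨h5, h6 | h6⟩
          · exact Or.inl ⟨h5, h6⟩
          · exact Or.inr ⟨h5, h6⟩
      · simp only [Ex.ev, var_setV, if_true, h13, hs7]
        exact hch
      · intro u hu
        simp only [arr_setV]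
        rcases (mem_take_succ hr).1 hu with h5 | h5
        · have hne : u ≠ v := fun h => hvt (h ▸ h5)
          rw [hK.Yu u hne, hY1 u hne]
          exact h.Y u h5
        · have h6 : u = v := h5
          rw [h6, hK.Yv, chJ_full]
  · refine ⟨?_, ?_, ?_, ?_, ?_⟩
    · refine (hj1.setV (by omega)).congr ?_
      intro c
      simp [chJ]
    · simp [v13]
    · simp
    · simp [chJ, hYv]
    · intro u _
      simp

theorem sum_le_work (I : ℕ → ℕ) (L : List ℕ) :
    (L.map (fun v => 26 * (adjL I v).length + 5 + 1)).sum ≤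
      26 * (L.map (fun v => (adjL I v).length + 1)).sum := by
  induction L with
  | nil => simp
  | cons b l ih =>
    simp only [List.map_cons, List.sum_cons]
    omega

theorem s_INI : S_INI := by
  intro a ha T hT
  refine ⟨iniC a T, 64, ?_⟩
  intro n I ord par W j s₀ hD hW hC htn h1 h2 htab
  have hR := hD.root
  have hW' : 64 * (n + 1) ≤ W := hW
  have ht : 1 ≤ 2 ^ j := Nat.one_le_two_pow
  have hj : j < n := lt_of_lt_of_le Nat.lt_two_pow_self htn
  set t := 2 ^ j with htdef
  set L := clsL n ord par j with hL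
  have hch0 := hC.cls j htn
  have hhead : s₀.arr 6 j ≤ n := by
    rw [← hL] at hch0
    cases hh : L with
    | nil => rw [hh] at hch0; have : s₀.arr 6 j = 0 := hch0; omega
    | cons b l =>
      rw [hh] at hch0
      have h5 := hch0.1
      have hb : b ∈ L := by rw [hh]; simp
      have := ((mem_clsL hR).1 hb).1
      omega
  refine Ht.mono (T := 1 + (1 + (1 + ((40 * t + 6) + (1 +
    (∑ r ∈ Finset.range L.length, (26 * (adjL I (L.getD r 0)).length + 5 + 1) + 1)))))) ?_ ?_
    (fun _ h => h)
  swap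
  · have hs := sum_range_getD (fun v => 26 * (adjL I v).length + 5 + 1) L
    rw [hs]
    have : (L.map (fun v => 26 * (adjL I v).length + 5 + 1)).sum ≤
        26 * (L.map (fun v => (adjL I v).length + 1)).sum := sum_le_work I L
    unfold work
    rw [← hL, ← htdef]
    omega
  refine Ht.seq (Ht.set ?_ ?_)
  · simp only [Ex.ok, Ex.ev, h1]; omega
  simp only [Ex.ev, h1]
  refine Ht.seq (Ht.set ?_ ?_)
  · simp only [Ex.ok, Ex.ev, var_setV, if_true]; omega
  simp only [Ex.ev, var_setV, if_true]
  refine Ht.seq (Ht.set ?_ ?_)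
  · simp only [Ex.ok]; omega
  simp only [Ex.ev]
  set s1 := (((s₀.setV 11 (t + t)).setV 11 (t + t + (t + t))).setV 10 0) with hs1
  have a1 : s1.arr = s₀.arr := rfl
  have v1 : ∀ x < 10, s1.var x = s₀.var x := by
    intro x hx
    simp only [hs1, var_setV]
    rw [if_neg (by omega), if_neg (by omega), if_neg (by omega)]
  have v10 : s1.var 10 = 0 := by simp [hs1]
  have v11 : s1.var 11 = 4 * t := by simp [hs1]; omega
  refine Ht.seq ?_
  have hloop := Ht.loop (N := 64 * (n + 1)) (W := W) (a := .v 10)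
    (b := .add (.v 11) (.add (.v 11) (.c 1))) (c := clearC)
    (Q := fun s' => Ht (64 * (n + 1)) W
      (.seq (.set 12 (.get 6 (.v 2))) (.loop (.c 0) (.v 12) (vertC a T))) s'
      (1 + (∑ r ∈ Finset.range L.length, (26 * (adjL I (L.getD r 0)).length + 5 + 1) + 1))
      (fun s' => Frame a T s₀ s' ∧ Ini n I ord par a T j s'))
    (8 * t + 1)
    (fun k s' => (∀ x < 10, s'.var x = s₀.var x) ∧ s'.var 11 = 4 * t ∧ s'.var 10 = k ∧
      (∀ p, p ≠ 60 → p ≠ 61 → p ≠ 62 → s'.arr p = s₀.arr p) ∧
      ∀ q < 3, ∀ κ < k, s'.arr (60 + q) κ = 0) (fun _ => 4) ?_ ?_ (s := s1) ?_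
  · refine hloop.mono ?_ (fun _ h => h)
    simp; omega
  · rintro k hk s' ⟨b1, b2, b3, b4, b5⟩
    refine ⟨?_, ?_, ?_, ?_⟩
    · simp only [Ex.ok, b3]; omega
    · simp only [Ex.ok, Ex.ev, b2]; omega
    · simp only [Ex.ev, b2, b3]; omega
    · refine Ht.mono (T := 1 + (1 + (1 + 1))) ?_ le_rfl (fun _ h => h)
      refine Ht.seq (Ht.put ?_ ?_ ?_ ?_ ?_ ?_)
      · simp only [Ex.ok, b3]; omega
      · simp only [Ex.ev, b3]; omega
      · simp only [Ex.ev, b3]; omega
      · simp only [Ex.ok]; omega
      · simp only [Ex.ev]; omega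
      refine Ht.seq (Ht.put ?_ ?_ ?_ ?_ ?_ ?_)
      · simp only [Ex.ok, var_putA, b3]; omega
      · simp only [Ex.ev, var_putA, b3]; omega
      · simp only [Ex.ev, var_putA, b3]; omega
      · simp only [Ex.ok]; omega
      · simp only [Ex.ev]; omega
      refine Ht.seq (Ht.put ?_ ?_ ?_ ?_ ?_ ?_)
      · simp only [Ex.ok, var_putA, b3]; omega
      · simp only [Ex.ev, var_putA, b3]; omega
      · simp only [Ex.ev, var_putA, b3]; omega
      · simp only [Ex.ok]; omega
      · simp only [Ex.ev]; omega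
      refine Ht.set ?_ ⟨?_, ?_, ?_, ?_, ?_⟩
      · simp only [Ex.ok, Ex.ev, var_putA, b3]; omega
      · intro x hx
        simp only [var_setV, var_putA]
        rw [if_neg (by omega)]; exact b1 x hx
      · simp only [var_setV, var_putA]
        rw [if_neg (by omega)]; exact b2
      · simp only [var_setV, var_putA, Ex.ev, b3, if_true]
      · intro p hp1 hp2 hp3
        simp only [arr_setV, arr_putA]
        rw [if_neg hp3, if_neg hp2, if_neg hp1]
        exact b4 p hp1 hp2 hp3
      · intro q hq κ hκ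
        simp only [arr_setV, arr_putA, Ex.ev, var_putA, b3]
        have hb := b5 q hq κ
        interval_cases q
        · simp only [Nat.add_zero, show ((60 : ℕ) = 62) = False by simp,
            show ((60 : ℕ) = 61) = False by simp, if_false, if_true, Function.update_apply]
          split_ifs with h5
          · rfl
          · exact hb (by omega)
        · simp only [show (60 + 1 = 62) = False by simp,
            show ((61 : ℕ) = 60) = False by simp, if_false, if_true, Function.update_apply]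
          split_ifs with h5
          · rfl
          · exact hb (by omega)
        · simp only [show ((62 : ℕ) = 61) = False by simp,
            show ((62 : ℕ) = 60) = False by simp, if_false, if_true, Function.update_apply]
          split_ifs with h5
          · rfl
          · exact hb (by omega)
  · rintro s' ⟨b1, b2, b3, b4, b5⟩
    refine ⟨?_, ?_, ?_, ?_⟩
    · simp only [Ex.ok, b3]; omega
    · simp only [Ex.ok, Ex.ev, b2]; omega
    · simp only [Ex.ev, b2, b3]; omega
    have e2 : s'.var 2 = j := by rw [b1 2 (by omega)]; exact h2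
    have e6 : s'.arr 6 = s₀.arr 6 := b4 6 (by omega) (by omega) (by omega)
    refine Ht.seq (Ht.set ?_ ?_)
    · simp only [Ex.ok, Ex.ev, e2, e6]
      refine ⟨?_, ?_, ?_, ?_⟩ <;> omega
    simp only [Ex.ev, e2, e6]
    refine Ht.loop L.length (OO n I ord par a T j s₀)
      (fun r => 26 * (adjL I (L.getD r 0)).length + 5) ?_ ?_ ?_
    · intro r hr s2 hO
      obtain ⟨c1, c2, c3⟩ := vert_ok ha hT hD hW' htn hC h1 htab hr hO
      refine ⟨?_, ?_, ?_, c3⟩
      · simp only [Ex.ok]; omega
      · simp only [Ex.ok]; omega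
      · simp only [Ex.ev]; exact c1
    · intro s2 hO
      have hch := hO.ch
      rw [← hL, List.drop_length] at hch
      have h12 : s2.var 12 = 0 := hch
      refine ⟨?_, ?_, ?_, hO.jj.fr, ?_⟩
      · simp only [Ex.ok]; omega
      · simp only [Ex.ok, h12]; omega
      · simp only [Ex.ev, h12]; omega
      have hDD : ∀ v ∈ L, ∀ c ∈ chl I par v, c < n ∧ par c ∈ L.take L.length := by
        intro v hv c hc
        have hvn := ((mem_clsL hR).1 hv).1
        obtain ⟨h5, h6⟩ := (hD.mem v hvn c).1 hc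
        rw [List.take_length, h6]
        exact ⟨h5, hv⟩
      have hLC : ∀ c, LightC n par j c ↔
          (c < n ∧ par c ∈ L.take L.length) ∧ sz n par c < 2 ^ j := by
        intro c
        rw [List.take_length, hL, mem_clsL hR]
        unfold LightC
        tauto
      refine ⟨?_, ?_, ?_, ?_⟩
      · intro c hc
        obtain ⟨h5, h6⟩ := (hLC c).1 hc
        rw [hO.jj.y c h5]
        unfold valE
        rw [if_pos h6]
      · intro v hv c hc hsz
        rw [hO.jj.y c (hDD v hv c hc)]
        unfold valE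
        rw [if_neg (by omega)]
      · intro v hv
        rw [hO.Y v (by rw [List.take_length]; exact hv)]
        congr 1
        apply List.map_congr_left
        intro c hc
        exact (hO.jj.y c (hDD v hv c hc)).symm
      · intro q hq κ hκ
        obtain ⟨l, h5, h6, h7, -⟩ := hO.jj.bk q hq κ hκ
        refine ⟨l, h5, h6, fun c => ?_⟩
        rw [h7, hLC]
        unfold AA
        tauto
    · refine ⟨⟨⟨?_, ?_⟩, ?_, ?_, ?_⟩, ?_, ?_⟩
      · intro x hx
        simp only [var_setV]
        rw [if_neg (by omega)]; exact b1 x hx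
      · intro q hq1 hq2 hq3
        exact b4 q (by omega) (by omega) (by omega)
      · simp only [var_setV]
        rw [if_neg (by omega)]; exact b2
      · rintro c ⟨-, hc⟩
        simp at hc
      · intro q hq κ hκ
        refine ⟨[], ?_, List.nodup_nil, ?_, ?_⟩
        · exact b5 q hq κ (by omega)
        · intro c
          unfold AA
          simp
        · intro c hc
          simp at hc
      · simp only [var_setV, if_true, List.drop_zero]
        exact hch0
      · intro v hv
        simp at hv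
  · refine ⟨v1, v11, v10, fun p _ _ _ => rfl, ?_⟩
    intro q _ κ hκ
    omega

end Pool.Agent.L7h86.UM
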